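import Pool.Agent.K7.H27.TH.Iso

/-!
# Realisations in isotropic coordinates
-/

set_option autoImplicit false
set_option linter.style.haveILetI false

namespace Pool.Agent.K7.H27.TH

/-- uniqueness of the isotropic coordinates of a distance matrix -/
theorem uniq {Ω V : Type} [Field Ω] (o x : V) (z w z' w' : V → Ω)
    (h : ∀ i j, (z i - z j) * (w i - w j) = (z' i - z' j) * (w' i - w' j))
    (h0 : (z o - z x) * (w o - w x) ≠ 0) :
    ∃ c : Ω, c ≠ 0 ∧ ((∀ i j, z' i - z' j = c * (z i - z j) ∧ w' i - w' j = c⁻¹ * (w i - w j)) ∨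
      (∀ i j, z' i - z' j = c * (w i - w j) ∧ w' i - w' j = c⁻¹ * (z i - z j))) := by
  have ha : z o - z x ≠ 0 := left_ne_zero_of_mul h0
  have hb : w o - w x ≠ 0 := right_ne_zero_of_mul h0
  have h0' : (z' o - z' x) * (w' o - w' x) ≠ 0 := by rw [← h]; exact h0
  have ha' : z' o - z' x ≠ 0 := left_ne_zero_of_mul h0'
  have hb' : w' o - w' x ≠ 0 := right_ne_zero_of_mul h0'
  set a := z o - z x with hadef
  set b := w o - w x with hbdef
  set a' := z' o - z' x with hadef'
  set b' := w' o - w' x with hbdef'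
  have hab : a * b = a' * b' := h o x
  let p : V → Ω := fun i => (z i - z x) / a
  let q : V → Ω := fun i => (w i - w x) / b
  let p' : V → Ω := fun i => (z' i - z' x) / a'
  let q' : V → Ω := fun i => (w' i - w' x) / b'
  have hz : ∀ i, z i - z x = a * p i := fun i => by simp only [p]; field_simp
  have hw : ∀ i, w i - w x = b * q i := fun i => by simp only [q]; field_simp
  have hz' : ∀ i, z' i - z' x = a' * p' i := fun i => by simp only [p']; field_simp
  have hw' : ∀ i, w' i - w' x = b' * q' i := fun i => by simp only [q']; field_simp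
  have key : ∀ i j, (p i - p j) * (q i - q j) = (p' i - p' j) * (q' i - q' j) := by
    intro i j
    have h1 := h i j
    have e1 : z i - z j = a * (p i - p j) := by linear_combination hz i - hz j
    have e2 : w i - w j = b * (q i - q j) := by linear_combination hw i - hw j
    have e3 : z' i - z' j = a' * (p' i - p' j) := by linear_combination hz' i - hz' j
    have e4 : w' i - w' j = b' * (q' i - q' j) := by linear_combination hw' i - hw' j
    rw [e1, e2, e3, e4] at h1
    have h2 : (a * b) * ((p i - p j) * (q i - q j)) = (a * b) * ((p' i - p' j) * (q' i - q' j)) := by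
      linear_combination h1 - (p' i - p' j) * (q' i - q' j) * hab
    exact mul_left_cancel₀ h0 h2
  have hpx : p x = 0 := by simp [p]
  have hqx : q x = 0 := by simp [q]
  have hpx' : p' x = 0 := by simp [p']
  have hqx' : q' x = 0 := by simp [q']
  have hpo : p o = 1 := by simp only [p]; exact div_self ha
  have hqo : q o = 1 := by simp only [q]; exact div_self hb
  have hpo' : p' o = 1 := by simp only [p']; exact div_self ha'
  have hqo' : q' o = 1 := by simp only [q']; exact div_self hb'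
  have hdi : ∀ i, (p' i = p i ∧ q' i = q i) ∨ (p' i = q i ∧ q' i = p i) := by
    intro i
    have h1 := key i x
    rw [hpx, hqx, hpx', hqx'] at h1
    have h2 := key i o
    rw [hpo, hqo, hpo', hqo'] at h2
    have h3 : p i + q i = p' i + q' i := by linear_combination h1 - h2
    have h4 : (p' i - p i) * (p' i - q i) = 0 := by linear_combination h1 - p' i * h3
    rcases mul_eq_zero.1 h4 with h5 | h5
    · left
      have h6 : p' i = p i := sub_eq_zero.1 h5
      exact ⟨h6, by linear_combination -h3 - h6⟩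
    · right
      have h6 : p' i = q i := sub_eq_zero.1 h5
      exact ⟨h6, by linear_combination -h3 - h6⟩
  have hall : (∀ i, p' i = p i ∧ q' i = q i) ∨ (∀ i, p' i = q i ∧ q' i = p i) := by
    by_contra hcon
    rw [not_or, not_forall, not_forall] at hcon
    obtain ⟨⟨i, hi⟩, ⟨j, hj⟩⟩ := hcon
    have hi2 := (hdi i).resolve_left hi
    have hj2 := (hdi j).resolve_right hj
    have h1 := key i j
    rw [hi2.1, hi2.2, hj2.1, hj2.2] at h1
    have h2 : (p i - q i) * (p j - q j) = 0 := by linear_combination h1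
    rcases mul_eq_zero.1 h2 with h5 | h5
    · apply hi
      have h6 := sub_eq_zero.1 h5
      rw [hi2.1, hi2.2, h6]; exact ⟨rfl, rfl⟩
    · apply hj
      have h6 := sub_eq_zero.1 h5
      rw [hj2.1, hj2.2, h6]; exact ⟨rfl, rfl⟩
  rcases hall with hall | hall
  · refine ⟨a' / a, div_ne_zero ha' ha, Or.inl fun i j => ⟨?_, ?_⟩⟩
    · have e1 : z i - z j = a * (p i - p j) := by linear_combination hz i - hz j
      have e3 : z' i - z' j = a' * (p' i - p' j) := by linear_combination hz' i - hz' j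
      rw [e3, e1, (hall i).1, (hall j).1]
      field_simp
    · have e2 : w i - w j = b * (q i - q j) := by linear_combination hw i - hw j
      have e4 : w' i - w' j = b' * (q' i - q' j) := by linear_combination hw' i - hw' j
      rw [e4, e2, (hall i).2, (hall j).2]
      field_simp
      linear_combination -(q i - q j) * hab
  · refine ⟨a' / b, div_ne_zero ha' hb, Or.inr fun i j => ⟨?_, ?_⟩⟩
    · have e2 : w i - w j = b * (q i - q j) := by linear_combination hw i - hw j
      have e3 : z' i - z' j = a' * (p' i - p' j) := by linear_combination hz' i - hz' j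
      rw [e3, e2, (hall i).1, (hall j).1]
      field_simp
    · have e1 : z i - z j = a * (p i - p j) := by linear_combination hz i - hz j
      have e4 : w' i - w' j = b' * (q' i - q' j) := by linear_combination hw' i - hw' j
      rw [e4, e1, (hall i).2, (hall j).2]
      field_simp
      linear_combination -(p i - p j) * hab

/-- adjacency of the graph `K₄,₄` minus three disjoint edges -/
def adj (i j : Fin 8) : Bool :=
  ((decide (i.1 < 4) && decide (4 ≤ j.1)) &&
    !((i.1 == 2 && j.1 == 6) || (i.1 == 0 && j.1 == 5) || (i.1 == 1 && j.1 == 4))) ||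
  ((decide (j.1 < 4) && decide (4 ≤ i.1)) &&
    !((j.1 == 2 && i.1 == 6) || (j.1 == 0 && i.1 == 5) || (j.1 == 1 && i.1 == 4)))

theorem adj_symm : ∀ i j : Fin 8, adj i j = true → adj j i = true := by decide

theorem adj_irrefl : ∀ i : Fin 8, ¬ adj i i = true := by decide

/-- the distance matrix -/
def DD {Ω : Type} [Field Ω] (z w : Fin 8 → Ω) : Fin 8 → Fin 8 → Ω :=
  fun i j => (z i - z j) * (w i - w j)

/-- the set of distance matrices with prescribed edge lengths -/
def SS {Ω : Type} [Field Ω] (m : Fin 8 → Fin 8 → Ω) : Set (Fin 8 → Fin 8 → Ω) :=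
  {D | ∃ z w : Fin 8 → Ω, (∀ i j, adj i j = true → (z i - z j) * (w i - w j) = m i j) ∧
    D = DD z w}

/-- minus sixteen times the squared area of the triangle `3, 7, 0` -/
def gg {Ω : Type} [Field Ω] (D : Fin 8 → Fin 8 → Ω) : Ω :=
  (D 3 7 + D 0 7 - D 0 3) ^ 2 - 4 * D 3 7 * D 0 7

/-- minus sixteen times the squared area of the triangle `7, 3, 4` -/
def gg2 {Ω : Type} [Field Ω] (D : Fin 8 → Fin 8 → Ω) : Ω :=
  (D 7 3 + D 4 3 - D 4 7) ^ 2 - 4 * D 7 3 * D 4 3

/-- the nondegenerate part -/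
def ST {Ω : Type} [Field Ω] (m : Fin 8 → Fin 8 → Ω) : Set (Fin 8 → Fin 8 → Ω) :=
  {D | D ∈ SS m ∧ gg D ≠ 0 ∧ gg2 D ≠ 0}

section

variable {Ω Ω' : Type} [Field Ω] [Field Ω']

theorem DD_comm (z w : Fin 8 → Ω) (i j : Fin 8) : DD z w i j = DD z w j i := by
  unfold DD; ring

theorem SS_congr {m m' : Fin 8 → Fin 8 → Ω} (h : ∀ i j, adj i j = true → m i j = m' i j) :
    SS m = SS m' := by
  ext D
  constructor
  · rintro ⟨z, w, h1, rfl⟩
    exact ⟨z, w, fun i j hij => (h1 i j hij).trans (h i j hij), rfl⟩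
  · rintro ⟨z, w, h1, rfl⟩
    exact ⟨z, w, fun i j hij => (h1 i j hij).trans (h i j hij).symm, rfl⟩

theorem ST_congr {m m' : Fin 8 → Fin 8 → Ω} (h : ∀ i j, adj i j = true → m i j = m' i j) :
    ST m = ST m' := by
  unfold ST; rw [SS_congr h]

/-- push a matrix along a homomorphism -/
def mp (φ : Ω →+* Ω') (D : Fin 8 → Fin 8 → Ω) : Fin 8 → Fin 8 → Ω' := fun i j => φ (D i j)

theorem mp_DD (φ : Ω →+* Ω') (z w : Fin 8 → Ω) :
    mp φ (DD z w) = DD (fun i => φ (z i)) (fun i => φ (w i)) := by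
  funext i j
  simp [mp, DD]

theorem mp_injective (φ : Ω →+* Ω') : Function.Injective (mp φ) := by
  intro D D' h
  funext i j
  exact φ.injective (congrFun (congrFun h i) j)

theorem mp_mem (φ : Ω →+* Ω') {m D : Fin 8 → Fin 8 → Ω} (hD : D ∈ SS m) : mp φ D ∈ SS (mp φ m) := by
  obtain ⟨z, w, h1, rfl⟩ := hD
  refine ⟨fun i => φ (z i), fun i => φ (w i), fun i j hij => ?_, mp_DD φ z w⟩
  have := congrArg φ (h1 i j hij)
  simpa [mp] using this

theorem gg_mp (φ : Ω →+* Ω') (D : Fin 8 → Fin 8 → Ω) : gg (mp φ D) = φ (gg D) := by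
  simp only [gg, mp, map_sub, map_pow, map_add, map_mul, map_ofNat]

theorem gg2_mp (φ : Ω →+* Ω') (D : Fin 8 → Fin 8 → Ω) : gg2 (mp φ D) = φ (gg2 D) := by
  simp only [gg2, mp, map_sub, map_pow, map_add, map_mul, map_ofNat]

theorem mp_memT (φ : Ω →+* Ω') {m D : Fin 8 → Fin 8 → Ω} (hD : D ∈ ST m) :
    mp φ D ∈ ST (mp φ m) := by
  refine ⟨mp_mem φ hD.1, ?_, ?_⟩
  · rw [gg_mp]
    exact (map_ne_zero φ).2 hD.2.1
  · rw [gg2_mp]
    exact (map_ne_zero φ).2 hD.2.2

theorem mp_mp {Ω'' : Type} [Field Ω''] (φ : Ω →+* Ω') (ψ : Ω' →+* Ω'') (D : Fin 8 → Fin 8 → Ω) :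
    mp ψ (mp φ D) = mp (ψ.comp φ) D := rfl

theorem mp_equiv_SS (φ : Ω ≃+* Ω') (m : Fin 8 → Fin 8 → Ω) :
    mp (φ : Ω →+* Ω') '' SS m = SS (mp (φ : Ω →+* Ω') m) := by
  apply Set.Subset.antisymm
  · rintro _ ⟨D, hD, rfl⟩
    exact mp_mem _ hD
  · intro D hD
    refine ⟨mp (φ.symm : Ω' →+* Ω) D, ?_, ?_⟩
    · have h1 := mp_mem (φ.symm : Ω' →+* Ω) hD
      have h2 : mp (φ.symm : Ω' →+* Ω) (mp (φ : Ω →+* Ω') m) = m := by
        funext i j; simp [mp]
      rwa [h2] at h1
    · funext i j; simp [mp]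

theorem mp_equiv_ST (φ : Ω ≃+* Ω') (m : Fin 8 → Fin 8 → Ω) :
    mp (φ : Ω →+* Ω') '' ST m = ST (mp (φ : Ω →+* Ω') m) := by
  apply Set.Subset.antisymm
  · rintro _ ⟨D, hD, rfl⟩
    exact mp_memT _ hD
  · intro D hD
    refine ⟨mp (φ.symm : Ω' →+* Ω) D, ?_, ?_⟩
    · have h1 := mp_memT (φ.symm : Ω' →+* Ω) hD
      have h2 : mp (φ.symm : Ω' →+* Ω) (mp (φ : Ω →+* Ω') m) = m := by
        funext i j; simp [mp]
      rwa [h2] at h1
    · funext i j; simp [mp]

theorem ncard_SS (φ : Ω ≃+* Ω') (m : Fin 8 → Fin 8 → Ω) :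
    (SS (mp (φ : Ω →+* Ω') m)).ncard = (SS m).ncard := by
  rw [← mp_equiv_SS, Set.ncard_image_of_injective _ (mp_injective _)]

theorem ncard_ST (φ : Ω ≃+* Ω') (m : Fin 8 → Fin 8 → Ω) :
    (ST (mp (φ : Ω →+* Ω') m)).ncard = (ST m).ncard := by
  rw [← mp_equiv_ST, Set.ncard_image_of_injective _ (mp_injective _)]

theorem finite_SS (φ : Ω ≃+* Ω') (m : Fin 8 → Fin 8 → Ω) (h : (SS m).Finite) :
    (SS (mp (φ : Ω →+* Ω') m)).Finite := by
  rw [← mp_equiv_SS]; exact h.image _

end

end Pool.Agent.K7.H27.TH
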