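import Mathlib

/-!
# Limits of hermitian solutions
-/

set_option autoImplicit false
set_option linter.style.haveILetI false

open Filter Topology Complex

namespace Pool.Agent.K7.H27.TH


section ultra

variable {X : Type} (U : Ultrafilter X)

theorem ul_bdd {f : X → ℂ} {R : ℝ} (h : ∀ᶠ x in (U : Filter X), ‖f x‖ ≤ R) :
    ∃ c, Tendsto f U (𝓝 c) := by
  have hc : IsCompact (Metric.closedBall (0 : ℂ) R) := isCompact_closedBall 0 R
  have h1 : ((U.map f : Ultrafilter ℂ) : Filter ℂ) ≤ 𝓟 (Metric.closedBall (0 : ℂ) R) := by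
    rw [Ultrafilter.coe_map, Filter.le_principal_iff, Filter.mem_map]
    filter_upwards [h] with x hx
    simpa using hx
  obtain ⟨c, -, hc⟩ := hc.ultrafilter_le_nhds _ h1
  exact ⟨c, hc⟩

theorem ul (f : X → ℂ) : (∃ c, Tendsto f U (𝓝 c)) ∨ Tendsto (fun x => ‖f x‖) U atTop := by
  by_cases h : ∃ R : ℝ, ∀ᶠ x in (U : Filter X), ‖f x‖ ≤ R
  · obtain ⟨R, hR⟩ := h
    exact Or.inl (ul_bdd U hR)
  · right
    rw [tendsto_atTop]
    intro R
    rw [not_exists] at h
    have h1 := h R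
    rw [← Ultrafilter.eventually_not] at h1
    filter_upwards [h1] with x hx
    exact (not_le.1 hx).le

theorem tdiv {f g : X → ℂ} {a b : ℂ} (hf : Tendsto f U (𝓝 a)) (hg : Tendsto g U (𝓝 b))
    (hb : b ≠ 0) : Tendsto (fun x => f x / g x) U (𝓝 (a / b)) := hf.div hg hb

theorem ul_prod {f g : X → ℂ} (h : Tendsto (fun x => f x * g x) U (𝓝 0)) :
    Tendsto f U (𝓝 0) ∨ Tendsto g U (𝓝 0) := by
  rcases ul U f with ⟨c, hc⟩ | hinf
  · by_cases hc0 : c = 0
    · left; rwa [hc0] at hc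
    · right
      have h1 := tdiv U h hc hc0
      rw [zero_div] at h1
      refine h1.congr' ?_
      filter_upwards [hc.eventually_ne hc0] with x hx
      field_simp
  · right
    have h1 : Tendsto (fun x => (f x)⁻¹) U (𝓝 0) := by
      rw [tendsto_zero_iff_norm_tendsto_zero]
      simp only [norm_inv]
      exact tendsto_inv_atTop_zero.comp hinf
    have h2 := h.mul h1
    rw [mul_zero] at h2
    refine h2.congr' ?_
    filter_upwards [hinf.eventually_gt_atTop 0] with x hx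
    have : f x ≠ 0 := norm_pos_iff.1 hx
    field_simp

end ultra

/-- the normalised hermitian system -/
structure Sol (n : ℂ) (a : Fin 3 → ℂ) (m v : Fin 2 → ℂ) (Z W : Fin 3 → ℂ) : Prop where
  e : ∀ i, Z i * W i = a i
  f : ∀ i : Fin 2, (Z i.castSucc - (starRingEnd ℂ) (Z 2) - 2 * I) * (W i.castSucc - (starRingEnd ℂ) (W 2) + I * n / 2) = m i
  l : ∀ i : Fin 2, (Z i.castSucc - (starRingEnd ℂ) (Z i.castSucc) - 2 * I) *
    (W i.castSucc - (starRingEnd ℂ) (W i.castSucc) + I * n / 2) = v i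

theorem Sol.swap {n : ℂ} {a : Fin 3 → ℂ} {m v : Fin 2 → ℂ} {Z W : Fin 3 → ℂ}
    (h : Sol n a m v Z W) (hn : (starRingEnd ℂ) n = n) (hn0 : n ≠ 0) :
    Sol n a m v (fun i => -(4 / n) * W i) (fun i => -(n / 4) * Z i) := by
  constructor
  · intro i
    rw [← h.e i]
    field_simp
  · intro i
    rw [← h.f i]
    simp only [map_mul, map_neg, map_div₀, hn, map_ofNat]
    field_simp
    ring
  · intro i
    rw [← h.l i]
    simp only [map_mul, map_neg, map_div₀, hn, map_ofNat]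
    field_simp
    ring

section

variable {X : Type} (U : Ultrafilter X)

theorem tcj {f : X → ℂ} {c : ℂ} (h : Tendsto f U (𝓝 c)) :
    Tendsto (fun x => (starRingEnd ℂ) (f x)) U (𝓝 ((starRingEnd ℂ) c)) :=
  (Complex.continuous_conj.tendsto c).comp h

/-- first case -/
theorem caseA {n m v Zi Wi Z2 W2 : X → ℂ} {μ : ℂ} (hn : ∀ x, (starRingEnd ℂ) (n x) = n x)
    (tn : Tendsto n U (𝓝 4)) (tm : Tendsto m U (𝓝 μ)) (tv : Tendsto v U (𝓝 (-8)))
    (hf : ∀ x, (Zi x - (starRingEnd ℂ) (Z2 x) - 2 * I) * (Wi x - (starRingEnd ℂ) (W2 x) + I * n x / 2) = m x)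
    (hl : ∀ x, (Zi x - (starRingEnd ℂ) (Zi x) - 2 * I) * (Wi x - (starRingEnd ℂ) (Wi x) + I * n x / 2) = v x)
    (hZi : Tendsto Zi U (𝓝 0)) (hZ2 : Tendsto Z2 U (𝓝 0)) :
    Tendsto (fun x => W2 x - (starRingEnd ℂ) (W2 x)) U (𝓝 ((μ + (starRingEnd ℂ) μ) * I / 2 + 2 * I)) := by
  have hH : Tendsto (fun x => Zi x - (starRingEnd ℂ) (Z2 x) - 2 * I) U (𝓝 (-2 * I)) := by
    have := (hZi.sub (tcj U hZ2)).sub_const (2 * I)
    simpa using this
  have hL : Tendsto (fun x => Zi x - (starRingEnd ℂ) (Zi x) - 2 * I) U (𝓝 (-2 * I)) := by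
    have := (hZi.sub (tcj U hZi)).sub_const (2 * I)
    simpa using this
  have h2I : (-2 * I : ℂ) ≠ 0 := by simp
  have hK : Tendsto (fun x => Wi x - (starRingEnd ℂ) (W2 x) + I * n x / 2) U (𝓝 (μ / (-2 * I))) := by
    refine (tdiv U tm hH h2I).congr' ?_
    filter_upwards [hH.eventually_ne h2I] with x hx
    rw [← hf x]; field_simp
  have hK2 : Tendsto (fun x => Wi x - (starRingEnd ℂ) (Wi x) + I * n x / 2) U (𝓝 (-8 / (-2 * I))) := by
    refine (tdiv U tv hL h2I).congr' ?_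
    filter_upwards [hL.eventually_ne h2I] with x hx
    rw [← hl x]; field_simp
  have h1 := ((hK.sub (tcj U hK)).sub hK2).sub ((tn.const_mul I).div_const 2)
  have h2 : (μ / (-2 * I) - (starRingEnd ℂ) (μ / (-2 * I)) - -8 / (-2 * I) - I * 4 / 2) =
      (μ + (starRingEnd ℂ) μ) * I / 2 + 2 * I := by
    simp only [map_div₀, map_mul, map_neg, map_ofNat, conj_I]
    field_simp
    ring_nf
    simp only [I_sq]
    ring
  rw [h2] at h1
  refine h1.congr fun x => ?_
  simp only [map_sub, map_add, map_div₀, map_mul, map_ofNat, conj_I, hn, conj_conj]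
  ring

/-- second case -/
theorem caseB {n a m v Zi Wi Z2 W2 : X → ℂ} {μ : ℂ}
    (tn : Tendsto n U (𝓝 4)) (tm : Tendsto m U (𝓝 μ)) (tv : Tendsto v U (𝓝 (-8)))
    (ta : Tendsto a U (𝓝 0)) (he : ∀ x, Zi x * Wi x = a x)
    (hf : ∀ x, (Zi x - (starRingEnd ℂ) (Z2 x) - 2 * I) * (Wi x - (starRingEnd ℂ) (W2 x) + I * n x / 2) = m x)
    (hl : ∀ x, (Zi x - (starRingEnd ℂ) (Zi x) - 2 * I) * (Wi x - (starRingEnd ℂ) (Wi x) + I * n x / 2) = v x)
    (hWi : Tendsto Wi U (𝓝 0)) (hZ2 : Tendsto Z2 U (𝓝 0)) :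
    Tendsto (fun x => (Zi x - (starRingEnd ℂ) (Z2 x) - 2 * I) - (starRingEnd ℂ) (Zi x - (starRingEnd ℂ) (Z2 x) - 2 * I)) U (𝓝 (2 * I)) ∧
    Tendsto (fun x => (Zi x - (starRingEnd ℂ) (Z2 x) - 2 * I) * (I * n x / 2 - (starRingEnd ℂ) (W2 x))) U (𝓝 μ) ∧
    ∃ κ : ℂ, Tendsto (fun x => I * n x / 2 - (starRingEnd ℂ) (W2 x)) U (𝓝 κ) ∧
      μ * (starRingEnd ℂ) κ - (starRingEnd ℂ) μ * κ = 2 * I * (κ * (starRingEnd ℂ) κ) := by
  have h2I : (2 * I : ℂ) ≠ 0 := by simp
  have hK : Tendsto (fun x => Wi x - (starRingEnd ℂ) (Wi x) + I * n x / 2) U (𝓝 (2 * I)) := by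
    have h1 := (hWi.sub (tcj U hWi)).add ((tn.const_mul I).div_const 2)
    have h2 : (0 : ℂ) - (starRingEnd ℂ) 0 + I * 4 / 2 = 2 * I := by rw [map_zero]; ring
    rwa [h2] at h1
  have hL : Tendsto (fun x => Zi x - (starRingEnd ℂ) (Zi x) - 2 * I) U (𝓝 (-8 / (2 * I))) := by
    refine (tdiv U tv hK h2I).congr' ?_
    filter_upwards [hK.eventually_ne h2I] with x hx
    rw [← hl x, mul_div_assoc, div_self hx, mul_one]
  have h1 : Tendsto (fun x => (Zi x - (starRingEnd ℂ) (Z2 x) - 2 * I) - (starRingEnd ℂ) (Zi x - (starRingEnd ℂ) (Z2 x) - 2 * I)) U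
      (𝓝 (2 * I)) := by
    have h3 := (hL.add (hZ2.sub (tcj U hZ2))).sub_const (2 * I)
    have h2 : (-8 / (2 * I) + (0 - (starRingEnd ℂ) 0) - 2 * I : ℂ) = 2 * I := by
      rw [map_zero]
      field_simp
      ring_nf
      simp only [I_sq]
      ring
    rw [h2] at h3
    refine h3.congr fun x => ?_
    simp only [map_sub, map_mul, map_ofNat, conj_I, conj_conj]
    ring
  have h2 : Tendsto (fun x => (Zi x - (starRingEnd ℂ) (Z2 x) - 2 * I) * (I * n x / 2 - (starRingEnd ℂ) (W2 x))) U (𝓝 μ) := by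
    have h3 : Tendsto (fun x => m x - (a x - ((starRingEnd ℂ) (Z2 x) + 2 * I) * Wi x)) U
        (𝓝 (μ - (0 - ((starRingEnd ℂ) 0 + 2 * I) * 0))) :=
      tm.sub (ta.sub (((tcj U hZ2).add_const (2 * I)).mul hWi))
    have h4 : μ - (0 - ((starRingEnd ℂ) 0 + 2 * I) * 0) = μ := by ring
    rw [h4] at h3
    refine h3.congr fun x => ?_
    rw [← hf x, ← he x]
    ring
  refine ⟨h1, h2, ?_⟩
  have hbd : ∀ᶠ x in (U : Filter X), ‖I * n x / 2 - (starRingEnd ℂ) (W2 x)‖ ≤ 2 * (‖μ‖ + 1) := by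
    have e1 : ∀ᶠ x in (U : Filter X),
        (1 : ℝ) < ‖(Zi x - (starRingEnd ℂ) (Z2 x) - 2 * I) - (starRingEnd ℂ) (Zi x - (starRingEnd ℂ) (Z2 x) - 2 * I)‖ := by
      have h5 := h1.norm
      have h6 : (1 : ℝ) < ‖(2 * I : ℂ)‖ := by simp
      exact h5.eventually (lt_mem_nhds h6)
    have e2 : ∀ᶠ x in (U : Filter X),
        ‖(Zi x - (starRingEnd ℂ) (Z2 x) - 2 * I) * (I * n x / 2 - (starRingEnd ℂ) (W2 x))‖ < ‖μ‖ + 1 :=
      h2.norm.eventually (gt_mem_nhds (by linarith))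
    filter_upwards [e1, e2] with x hx1 hx2
    set H := Zi x - (starRingEnd ℂ) (Z2 x) - 2 * I
    have h7 : ‖H - (starRingEnd ℂ) H‖ ≤ ‖H‖ + ‖H‖ := by
      refine (norm_sub_le _ _).trans ?_
      rw [Complex.norm_conj]
    rw [norm_mul] at hx2
    have h8 : (1 : ℝ) / 2 ≤ ‖H‖ := by linarith
    have h9 : (0 : ℝ) ≤ ‖I * n x / 2 - (starRingEnd ℂ) (W2 x)‖ := norm_nonneg _
    nlinarith
  obtain ⟨κ, hκ⟩ := ul_bdd U hbd
  refine ⟨κ, hκ, ?_⟩
  have h5 := (h2.mul (tcj U hκ)).sub ((tcj U h2).mul hκ)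
  have h6 := h1.mul (hκ.mul (tcj U hκ))
  refine tendsto_nhds_unique h5 (h6.congr fun x => ?_)
  simp only [map_sub, map_mul, map_ofNat, conj_I, conj_conj]
  ring

/-- the limit point -/
noncomputable def PZ : Fin 3 → ℂ := ![3 * I, 1 + 3 * I, 0]

/-- the limit point -/
noncomputable def PW : Fin 3 → ℂ := ![0, 0, -1 - 2 * I]

/-- the limiting parameters -/
noncomputable def Pm : Fin 2 → ℂ := ![I, 1 + I]

theorem conv0 {n : X → ℂ} {a : X → Fin 3 → ℂ} {m v : X → Fin 2 → ℂ} {Z W : X → Fin 3 → ℂ}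
    (hn : ∀ x, (starRingEnd ℂ) (n x) = n x)
    (tn : Tendsto n U (𝓝 4)) (tm : ∀ i, Tendsto (fun x => m x i) U (𝓝 (Pm i)))
    (tv : ∀ i, Tendsto (fun x => v x i) U (𝓝 (-8))) (ta : ∀ i, Tendsto (fun x => a x i) U (𝓝 0))
    (h : ∀ x, Sol (n x) (a x) (m x) (v x) (Z x) (W x))
    (hZ2 : Tendsto (fun x => Z x 2) U (𝓝 0)) :
    ∀ i, Tendsto (fun x => Z x i) U (𝓝 (PZ i)) ∧ Tendsto (fun x => W x i) U (𝓝 (PW i)) := by
  have hA : ∀ i : Fin 2, Tendsto (fun x => Z x i.castSucc) U (𝓝 0) →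
      Tendsto (fun x => W x 2 - (starRingEnd ℂ) (W x 2)) U (𝓝 ((Pm i + (starRingEnd ℂ) (Pm i)) * I / 2 + 2 * I)) :=
    fun i hi => caseA U hn tn (tm i) (tv i) (fun x => (h x).f i) (fun x => (h x).l i) hi hZ2
  have hB : ∀ i : Fin 2, Tendsto (fun x => W x i.castSucc) U (𝓝 0) → _ :=
    fun i hi => caseB U tn (tm i) (tv i) (ta i.castSucc) (fun x => (h x).e i.castSucc)
      (fun x => (h x).f i) (fun x => (h x).l i) hi hZ2
  have hpr : ∀ i : Fin 2, Tendsto (fun x => Z x i.castSucc) U (𝓝 0) ∨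
      Tendsto (fun x => W x i.castSucc) U (𝓝 0) := by
    intro i
    apply ul_prod U
    refine (ta i.castSucc).congr fun x => ?_
    exact ((h x).e i.castSucc).symm
  have q0 : (Pm 0 + (starRingEnd ℂ) (Pm 0)) * I / 2 + 2 * I = 2 * I := by simp [Pm]
  have q1 : (Pm 1 + (starRingEnd ℂ) (Pm 1)) * I / 2 + 2 * I = 3 * I := by
    simp only [Pm, Matrix.cons_val_one, Matrix.cons_val_zero, map_add, map_one, conj_I]
    ring
  have hWη : ∀ κ : ℂ, Tendsto (fun x => I * n x / 2 - (starRingEnd ℂ) (W x 2)) U (𝓝 κ) →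
      Tendsto (fun x => W x 2) U (𝓝 (-2 * I - (starRingEnd ℂ) κ)) := by
    intro κ hκ
    have h1 := tcj U (((tn.const_mul I).div_const 2).sub hκ)
    have h2 : (starRingEnd ℂ) (I * 4 / 2 - κ) = -2 * I - (starRingEnd ℂ) κ := by
      simp only [map_sub, map_div₀, map_mul, map_ofNat, conj_I]
      ring
    rw [h2] at h1
    refine h1.congr fun x => ?_
    simp only [map_sub, map_div₀, map_mul, map_ofNat, conj_I, conj_conj, hn]
    ring
  rcases hpr 0 with h0 | h0 <;> rcases hpr 1 with h1 | h1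
  · exfalso
    have e0 := hA 0 h0
    have e1 := hA 1 h1
    rw [q0] at e0
    rw [q1] at e1
    have := tendsto_nhds_unique e0 e1
    have h3 := congrArg Complex.im this
    norm_num at h3
  · exfalso
    have e0 := hA 0 h0
    rw [q0] at e0
    obtain ⟨-, -, κ, hκ, hκ2⟩ := hB 1 h1
    have e2 := hWη κ hκ
    have e3 := tendsto_nhds_unique e0 (e2.sub (tcj U e2))
    have h3 := congrArg Complex.im e3
    have h4 := congrArg Complex.im hκ2
    simp [Pm, Complex.mul_im, Complex.add_im] at h3 h4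
    have h5 : κ.im = 3 := by linarith
    rw [h5] at h4
    nlinarith [sq_nonneg (κ.re - 1)]
  · exfalso
    have e1 := hA 1 h1
    rw [q1] at e1
    obtain ⟨-, -, κ, hκ, hκ2⟩ := hB 0 h0
    have e2 := hWη κ hκ
    have e3 := tendsto_nhds_unique e1 (e2.sub (tcj U e2))
    have h3 := congrArg Complex.im e3
    have h4 := congrArg Complex.im hκ2
    simp [Pm, Complex.mul_im, Complex.add_im] at h3 h4
    have h5 : κ.im = 7 / 2 := by linarith
    rw [h5] at h4
    nlinarith [sq_nonneg (κ.re - 1)]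
  · obtain ⟨A0, M0, κ, hκ, -⟩ := hB 0 h0
    obtain ⟨A1, M1, -, -, -⟩ := hB 1 h1
    have hκ1 : κ = 1 := by
      have e1 := hκ.mul (((tcj U M1).mul A0).sub ((tcj U M0).mul A1))
      have e2 := ((tcj U M1).mul M0).sub ((tcj U M0).mul M1)
      have e3 := tendsto_nhds_unique e1 (e2.congr fun x => by
        simp only [map_sub, map_mul, map_div₀, map_ofNat, conj_I, conj_conj, hn]
        ring)
      have e4 : (starRingEnd ℂ) (Pm 1) * (2 * I) - (starRingEnd ℂ) (Pm 0) * (2 * I) = 2 * I := by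
        simp only [Pm, Matrix.cons_val_one, Matrix.cons_val_zero, map_add, map_one, conj_I]
        ring
      have e5 : (starRingEnd ℂ) (Pm 1) * Pm 0 - (starRingEnd ℂ) (Pm 0) * Pm 1 = 2 * I := by
        simp only [Pm, Matrix.cons_val_one, Matrix.cons_val_zero, map_add, map_one, conj_I]
        ring
      rw [e4, e5] at e3
      have h2I : (2 * I : ℂ) ≠ 0 := by simp
      exact mul_right_cancel₀ h2I (by rw [e3, one_mul])
    rw [hκ1] at hκ
    have hW2 := hWη 1 hκ
    have hZi : ∀ i : Fin 2, Tendsto (fun x => (Z x i.castSucc - (starRingEnd ℂ) (Z x 2) - 2 * I) *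
        (I * n x / 2 - (starRingEnd ℂ) (W x 2))) U (𝓝 (Pm i)) →
        Tendsto (fun x => Z x i.castSucc) U (𝓝 (Pm i + 2 * I)) := by
      intro i hi
      have e1 := tdiv U hi hκ one_ne_zero
      have e2 := (e1.add (tcj U hZ2)).add_const (2 * I)
      have e3 : Pm i / 1 + (starRingEnd ℂ) 0 + 2 * I = Pm i + 2 * I := by rw [map_zero]; ring
      rw [e3] at e2
      refine e2.congr' ?_
      filter_upwards [hκ.eventually_ne one_ne_zero] with x hx
      rw [mul_div_assoc, div_self hx, mul_one]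
      ring
    have hZ0 := hZi 0 M0
    have hZ1 := hZi 1 M1
    intro i
    fin_cases i
    · constructor
      · have : Pm 0 + 2 * I = PZ 0 := by simp [Pm, PZ]; ring
        rw [← show PZ 0 = PZ ((fun i => i) ⟨0, by norm_num⟩) from rfl, ← this]
        exact hZ0
      · exact h0
    · constructor
      · have : Pm 1 + 2 * I = PZ 1 := by simp [Pm, PZ]; ring
        rw [← show PZ 1 = PZ ((fun i => i) ⟨1, by norm_num⟩) from rfl, ← this]
        exact hZ1
      · exact h1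
    · constructor
      · exact hZ2
      · have : -2 * I - (starRingEnd ℂ) 1 = PW 2 := by simp [PW]; ring
        rw [← show PW 2 = PW ((fun i => i) ⟨2, by norm_num⟩) from rfl, ← this]
        exact hW2

theorem conv {n : X → ℂ} {a : X → Fin 3 → ℂ} {m v : X → Fin 2 → ℂ} {Z W : X → Fin 3 → ℂ}
    (hn : ∀ x, (starRingEnd ℂ) (n x) = n x) (hn0 : ∀ x, n x ≠ 0)
    (tn : Tendsto n U (𝓝 4)) (tm : ∀ i, Tendsto (fun x => m x i) U (𝓝 (Pm i)))
    (tv : ∀ i, Tendsto (fun x => v x i) U (𝓝 (-8))) (ta : ∀ i, Tendsto (fun x => a x i) U (𝓝 0))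
    (h : ∀ x, Sol (n x) (a x) (m x) (v x) (Z x) (W x)) :
    (∀ i, Tendsto (fun x => Z x i) U (𝓝 (PZ i)) ∧ Tendsto (fun x => W x i) U (𝓝 (PW i))) ∨
    (∀ i, Tendsto (fun x => -(4 / n x) * W x i) U (𝓝 (PZ i)) ∧
      Tendsto (fun x => -(n x / 4) * Z x i) U (𝓝 (PW i))) := by
  have h1 : Tendsto (fun x => Z x 2 * W x 2) U (𝓝 0) :=
    (ta 2).congr fun x => ((h x).e 2).symm
  rcases ul_prod U h1 with h2 | h2
  · exact Or.inl (conv0 U hn tn tm tv ta h h2)
  · refine Or.inr (conv0 U hn tn tm tv ta (fun x => (h x).swap (hn x) (hn0 x)) ?_)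
    have h3 : Tendsto (fun x => -(4 / n x)) U (𝓝 (-(4 / 4))) :=
      (tdiv U tendsto_const_nhds tn (by norm_num)).neg
    have h4 := h3.mul h2
    rw [mul_zero] at h4
    exact h4

theorem loc {n : X → ℂ} {a : X → Fin 3 → ℂ} {m v : X → Fin 2 → ℂ} {Z W Z' W' : X → Fin 3 → ℂ}
    (tn : Tendsto n U (𝓝 4))
    (h : ∀ x, Sol (n x) (a x) (m x) (v x) (Z x) (W x))
    (h' : ∀ x, Sol (n x) (a x) (m x) (v x) (Z' x) (W' x))
    (t : ∀ i, Tendsto (fun x => Z x i) U (𝓝 (PZ i)) ∧ Tendsto (fun x => W x i) U (𝓝 (PW i)))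
    (t' : ∀ i, Tendsto (fun x => Z' x i) U (𝓝 (PZ i)) ∧
      Tendsto (fun x => W' x i) U (𝓝 (PW i))) :
    ∀ᶠ x in (U : Filter X), Z x = Z' x ∧ W x = W' x := by
  by_contra hcon
  rw [← Ultrafilter.eventually_not] at hcon
  let d : X → (Fin 3 → ℂ) × (Fin 3 → ℂ) := fun x => (Z x - Z' x, W x - W' x)
  have hd : ∀ᶠ x in (U : Filter X), d x ≠ 0 := by
    filter_upwards [hcon] with x hx h0
    apply hx
    have h1 := congrArg Prod.fst h0
    have h2 := congrArg Prod.snd h0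
    exact ⟨sub_eq_zero.1 h1, sub_eq_zero.1 h2⟩
  let e : X → (Fin 3 → ℂ) × (Fin 3 → ℂ) := fun x => (((‖d x‖⁻¹ : ℝ) : ℂ)) • d x
  have he : ∀ᶠ x in (U : Filter X), e x ∈ Metric.sphere (0 : (Fin 3 → ℂ) × (Fin 3 → ℂ)) 1 := by
    filter_upwards [hd] with x hx
    rw [mem_sphere_zero_iff_norm]
    simp only [e]
    rw [norm_smul, Complex.norm_real, norm_inv, norm_norm]
    exact inv_mul_cancel₀ (norm_ne_zero_iff.2 hx)
  have h1 : ((U.map e : Ultrafilter _) : Filter ((Fin 3 → ℂ) × (Fin 3 → ℂ))) ≤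
      𝓟 (Metric.sphere (0 : (Fin 3 → ℂ) × (Fin 3 → ℂ)) 1) := by
    rw [Ultrafilter.coe_map, Filter.le_principal_iff, Filter.mem_map]
    exact he
  obtain ⟨E, hE1, hE2⟩ := (isCompact_sphere (0 : (Fin 3 → ℂ) × (Fin 3 → ℂ)) 1).ultrafilter_le_nhds
    _ h1
  have hte : Tendsto e U (𝓝 E) := hE2
  obtain ⟨P, Q⟩ := E
  let r : X → ℂ := fun x => ((‖d x‖⁻¹ : ℝ) : ℂ)
  have hr : ∀ x, (starRingEnd ℂ) (r x) = r x := fun x => Complex.conj_ofReal _
  have hP : ∀ i, Tendsto (fun x => r x * (Z x i - Z' x i)) U (𝓝 (P i)) := by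
    intro i
    have h2 := ((continuous_apply i).comp continuous_fst).tendsto (P, Q) |>.comp hte
    exact h2
  have hQ : ∀ i, Tendsto (fun x => r x * (W x i - W' x i)) U (𝓝 (Q i)) := by
    intro i
    have h2 := ((continuous_apply i).comp continuous_snd).tendsto (P, Q) |>.comp hte
    exact h2
  have eqE : ∀ i, P i * PW i + PZ i * Q i = 0 := by
    intro i
    have h2 := ((hP i).mul (((t i).2.add (t' i).2).div_const 2)).add
      ((((t i).1.add (t' i).1).div_const 2).mul (hQ i))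
    have h3 : P i * ((PW i + PW i) / 2) + (PZ i + PZ i) / 2 * Q i = P i * PW i + PZ i * Q i := by
      ring
    rw [h3] at h2
    refine tendsto_nhds_unique h2 ((tendsto_const_nhds (x := (0 : ℂ))).congr fun x => ?_)
    have h4 := (h x).e i
    have h5 := (h' x).e i
    rw [← h5] at h4
    linear_combination -(r x) * h4
  have eqL : ∀ i : Fin 2, (P i.castSucc - (starRingEnd ℂ) (P i.castSucc)) *
      (PW i.castSucc - (starRingEnd ℂ) (PW i.castSucc) + I * 4 / 2) +
      (PZ i.castSucc - (starRingEnd ℂ) (PZ i.castSucc) - 2 * I) * (Q i.castSucc - (starRingEnd ℂ) (Q i.castSucc)) = 0 := by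
    intro i
    have tz := (t i.castSucc).1
    have tw := (t i.castSucc).2
    have tz' := (t' i.castSucc).1
    have tw' := (t' i.castSucc).2
    have hp := hP i.castSucc
    have hq := hQ i.castSucc
    have h2 := ((hp.sub (tcj U hp)).mul ((((tw.add tw').sub ((tcj U tw).add (tcj U tw'))).div_const
      2).add ((tn.const_mul I).div_const 2))).add (((((tz.add tz').sub ((tcj U tz).add
      (tcj U tz'))).div_const 2).sub_const (2 * I)).mul (hq.sub (tcj U hq)))
    have h3 : (P i.castSucc - (starRingEnd ℂ) (P i.castSucc)) *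
        ((PW i.castSucc + PW i.castSucc - ((starRingEnd ℂ) (PW i.castSucc) + (starRingEnd ℂ) (PW i.castSucc))) / 2 +
        I * 4 / 2) + ((PZ i.castSucc + PZ i.castSucc - ((starRingEnd ℂ) (PZ i.castSucc) +
        (starRingEnd ℂ) (PZ i.castSucc))) / 2 - 2 * I) * (Q i.castSucc - (starRingEnd ℂ) (Q i.castSucc)) =
        (P i.castSucc - (starRingEnd ℂ) (P i.castSucc)) *
      (PW i.castSucc - (starRingEnd ℂ) (PW i.castSucc) + I * 4 / 2) +
      (PZ i.castSucc - (starRingEnd ℂ) (PZ i.castSucc) - 2 * I) * (Q i.castSucc - (starRingEnd ℂ) (Q i.castSucc)) := by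
      ring
    rw [h3] at h2
    refine tendsto_nhds_unique h2 ((tendsto_const_nhds (x := (0 : ℂ))).congr fun x => ?_)
    have h4 := (h x).l i
    have h5 := (h' x).l i
    rw [← h5] at h4
    simp only [map_mul, map_sub, hr]
    linear_combination -(r x) * h4
  have eqF : ∀ i : Fin 2, (P i.castSucc - (starRingEnd ℂ) (P 2)) *
      (PW i.castSucc - (starRingEnd ℂ) (PW 2) + I * 4 / 2) +
      (PZ i.castSucc - (starRingEnd ℂ) (PZ 2) - 2 * I) * (Q i.castSucc - (starRingEnd ℂ) (Q 2)) = 0 := by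
    intro i
    have tz := (t i.castSucc).1
    have tw := (t i.castSucc).2
    have tz' := (t' i.castSucc).1
    have tw' := (t' i.castSucc).2
    have tz2 := (t 2).1
    have tw2 := (t 2).2
    have tz2' := (t' 2).1
    have tw2' := (t' 2).2
    have hp := hP i.castSucc
    have hq := hQ i.castSucc
    have hp2 := hP 2
    have hq2 := hQ 2
    have h2 := ((hp.sub (tcj U hp2)).mul ((((tw.add tw').sub ((tcj U tw2).add
      (tcj U tw2'))).div_const
      2).add ((tn.const_mul I).div_const 2))).add (((((tz.add tz').sub ((tcj U tz2).add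
      (tcj U tz2'))).div_const 2).sub_const (2 * I)).mul (hq.sub (tcj U hq2)))
    have h3 : (P i.castSucc - (starRingEnd ℂ) (P 2)) *
        ((PW i.castSucc + PW i.castSucc - ((starRingEnd ℂ) (PW 2) + (starRingEnd ℂ) (PW 2))) / 2 +
        I * 4 / 2) + ((PZ i.castSucc + PZ i.castSucc - ((starRingEnd ℂ) (PZ 2) +
        (starRingEnd ℂ) (PZ 2))) / 2 - 2 * I) * (Q i.castSucc - (starRingEnd ℂ) (Q 2)) =
        (P i.castSucc - (starRingEnd ℂ) (P 2)) *
      (PW i.castSucc - (starRingEnd ℂ) (PW 2) + I * 4 / 2) +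
      (PZ i.castSucc - (starRingEnd ℂ) (PZ 2) - 2 * I) * (Q i.castSucc - (starRingEnd ℂ) (Q 2)) := by
      ring
    rw [h3] at h2
    refine tendsto_nhds_unique h2 ((tendsto_const_nhds (x := (0 : ℂ))).congr fun x => ?_)
    have h4 := (h x).f i
    have h5 := (h' x).f i
    rw [← h5] at h4
    simp only [map_mul, map_sub, hr]
    linear_combination -(r x) * h4
  -- solve the limiting linear system
  have hQ0 : Q 0 = 0 := by
    have h2 := eqE 0
    simp only [PZ, PW, Matrix.cons_val_zero, mul_zero, zero_add] at h2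
    rcases mul_eq_zero.1 h2 with h3 | h3
    · simp at h3
    · exact h3
  have hQ1 : Q 1 = 0 := by
    have h2 := eqE 1
    simp only [PZ, PW, Matrix.cons_val_one, Matrix.cons_val_zero, mul_zero, zero_add] at h2
    rcases mul_eq_zero.1 h2 with h3 | h3
    · have := congrArg Complex.re h3
      simp at this
    · exact h3
  have hP2 : P 2 = 0 := by
    have h2 := eqE 2
    simp only [PZ, PW, Matrix.cons_val, zero_mul, add_zero] at h2
    rcases mul_eq_zero.1 h2 with h3 | h3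
    · exact h3
    · have := congrArg Complex.re h3
      simp at this
  have hP0r : P 0 = (starRingEnd ℂ) (P 0) := by
    have h2 := eqL 0
    have h3 : (0 : Fin 2).castSucc = (0 : Fin 3) := rfl
    rw [h3, hQ0] at h2
    simp only [PZ, PW, Matrix.cons_val_zero, map_zero, sub_zero, mul_zero, add_zero,
      zero_add] at h2
    rcases mul_eq_zero.1 h2 with h3 | h3
    · exact sub_eq_zero.1 h3
    · simp at h3
  have hP1r : P 1 = (starRingEnd ℂ) (P 1) := by
    have h2 := eqL 1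
    have h3 : (1 : Fin 2).castSucc = (1 : Fin 3) := rfl
    rw [h3, hQ1] at h2
    simp only [PZ, PW, Matrix.cons_val_one, Matrix.cons_val_zero, map_zero, sub_zero, mul_zero,
      add_zero, zero_add] at h2
    rcases mul_eq_zero.1 h2 with h3 | h3
    · exact sub_eq_zero.1 h3
    · simp at h3
  have hP0 : P 0 = I * (starRingEnd ℂ) (Q 2) := by
    have h2 := eqF 0
    have h3 : (0 : Fin 2).castSucc = (0 : Fin 3) := rfl
    rw [h3, hQ0, hP2] at h2
    simp only [PZ, PW, Matrix.cons_val_zero, Matrix.cons_val, map_zero, map_sub, map_neg, map_one,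
      map_mul, map_ofNat, conj_I] at h2
    linear_combination h2
  have hP1 : P 1 = (1 + I) * (starRingEnd ℂ) (Q 2) := by
    have h2 := eqF 1
    have h3 : (1 : Fin 2).castSucc = (1 : Fin 3) := rfl
    rw [h3, hQ1, hP2] at h2
    simp only [PZ, PW, Matrix.cons_val_one, Matrix.cons_val_zero, Matrix.cons_val, map_zero,
      map_sub, map_neg, map_one, map_mul, map_ofNat, conj_I] at h2
    linear_combination h2
  have hQ2 : Q 2 = 0 := by
    have h2 := congrArg Complex.im hP0r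
    have h3 := congrArg Complex.im hP1r
    rw [hP0] at h2
    rw [hP1] at h3
    simp [Complex.mul_im, Complex.mul_re] at h2 h3
    apply Complex.ext
    · simp; linarith
    · simp; linarith
  have hzero : ((P, Q) : (Fin 3 → ℂ) × (Fin 3 → ℂ)) = 0 := by
    rw [Prod.ext_iff]
    constructor
    · funext i
      fin_cases i
      · exact hP0.trans (by rw [hQ2]; simp)
      · exact hP1.trans (by rw [hQ2]; simp)
      · exact hP2
    · funext i
      fin_cases i
      · exact hQ0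
      · exact hQ1
      · exact hQ2
  rw [hzero, mem_sphere_zero_iff_norm, norm_zero] at hE1
  exact zero_ne_one hE1

end

end Pool.Agent.K7.H27.TH
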