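import Pool.Agent.K7.H27.TH.Herm

/-!
# An odd number of realisations
-/

set_option autoImplicit false
set_option linter.style.haveILetI false

open Complex Filter Topology

namespace Pool.Agent.K7.H27.TH


theorem conv' {X : Type} (U : Ultrafilter X) {n : X → ℂ} {a : X → Fin 3 → ℂ} {m v : X → Fin 2 → ℂ}
    {Z W : X → Fin 3 → ℂ} (hn : ∀ x, (starRingEnd ℂ) (n x) = n x) (hn0 : ∀ x, n x ≠ 0)
    (tn : Tendsto n U (𝓝 4)) (tm : ∀ i, Tendsto (fun x => m x i) U (𝓝 (Pm i)))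
    (tv : ∀ i, Tendsto (fun x => v x i) U (𝓝 (-8))) (ta : ∀ i, Tendsto (fun x => a x i) U (𝓝 0))
    (h : ∀ x, Sol (n x) (a x) (m x) (v x) (Z x) (W x)) :
    ∃ Z1 W1 : X → Fin 3 → ℂ, (∀ x, Sol (n x) (a x) (m x) (v x) (Z1 x) (W1 x)) ∧
      (∀ x, DN (n x) (Z1 x) (W1 x) = DN (n x) (Z x) (W x)) ∧
      ∀ i, Tendsto (fun x => Z1 x i) U (𝓝 (PZ i)) ∧ Tendsto (fun x => W1 x i) U (𝓝 (PW i)) := by
  rcases conv U hn hn0 tn tm tv ta h with h1 | h1
  · exact ⟨Z, W, h, fun _ => rfl, h1⟩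
  · exact ⟨fun x i => -(4 / n x) * W x i, fun x i => -(n x / 4) * Z x i,
      fun x => (h x).swap (hn x) (hn0 x), fun x => DN_swap (hn x) (hn0 x) _ _, h1⟩

theorem c2 : (starRingEnd ℂ) (2 : ℂ) = 2 := map_ofNat _ 2

/-- the vertex of the first side -/
def ca (i : Fin 4) : Fin 8 := Fin.castLE (by norm_num) i

theorem tw_ca (a : Fin 4 → ℂ) (i : Fin 4) : tw a (ca i) = a i := by
  fin_cases i <;> simp [tw, ca]

theorem ca_cases : ∀ v : Fin 8, ∃ i : Fin 4, v = ca i ∨ v = sg (ca i) := by decide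

/-- rational parts of the special point -/
def q1 : Fin 4 → ℚ := ![0, 1, 0, 0]
/-- rational parts of the special point -/
def q2 : Fin 4 → ℚ := ![2, 2, -1, 1]
/-- rational parts of the special point -/
def q3 : Fin 4 → ℚ := ![0, 0, -1, 0]
/-- rational parts of the special point -/
def q4 : Fin 4 → ℚ := ![1, 1, -1, -1]

/-- the sequence of generic points -/
noncomputable def sq (r s : Fin 4 → ℚ) (x y : Fin 4 → ℝ) (N : ℕ) (i : Fin 4) : ℂ :=
  (r i : ℂ) + (s i : ℂ) * I + (((N + 1 : ℚ)⁻¹ : ℚ) : ℂ) * ((x i : ℂ) + I * (y i : ℂ))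

theorem sq_tendsto (r s : Fin 4 → ℚ) (x y : Fin 4 → ℝ) (i : Fin 4) :
    Tendsto (fun N => sq r s x y N i) atTop (𝓝 ((r i : ℂ) + (s i : ℂ) * I)) := by
  have h1 : Tendsto (fun N : ℕ => (((N + 1 : ℚ)⁻¹ : ℚ) : ℂ)) atTop (𝓝 0) := by
    have h2 : Tendsto (fun N : ℕ => (1 : ℝ) / ((N : ℝ) + 1)) atTop (𝓝 0) :=
      tendsto_one_div_add_atTop_nhds_zero_nat
    have h3 := (Complex.continuous_ofReal.tendsto 0).comp h2
    rw [Complex.ofReal_zero] at h3
    refine h3.congr fun N => ?_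
    simp
  have h4 := (h1.mul_const ((x i : ℂ) + I * (y i : ℂ))).const_add ((r i : ℂ) + (s i : ℂ) * I)
  rw [zero_mul, add_zero] at h4
  exact h4

theorem sq_alg (r s : Fin 4 → ℚ) (x y : Fin 4 → ℝ) (N : ℕ) (i : Fin 4) {κ : Type} (f : κ → ℂ)
    {j j' : κ} (h : f j = sq r s x y N i) (h' : f j' = (starRingEnd ℂ) (sq r s x y N i)) :
    IsAlgebraic (Algebra.adjoin ℚ (Set.range f)) (x i : ℂ) ∧
    IsAlgebraic (Algebra.adjoin ℚ (Set.range f)) (y i : ℂ) := by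
  have hN : ((N : ℂ) + 1) ≠ 0 := by exact_mod_cast Nat.succ_ne_zero N
  have hrat : ∀ q : ℚ, IsAlgebraic (Algebra.adjoin ℚ (Set.range f)) (q : ℂ) := fun q =>
    alg_of_rat f (isAlgebraic_algebraMap (R := ℚ) (A := ℂ) q)
  have hI := alg_I f
  have h1 := mem_adj f j
  have h2 := mem_adj f j'
  have hcj : (starRingEnd ℂ) (sq r s x y N i) = (r i : ℂ) - (s i : ℂ) * I +
      (((N + 1 : ℚ)⁻¹ : ℚ) : ℂ) * ((x i : ℂ) - I * (y i : ℂ)) := by
    simp only [sq, map_add, map_mul, conj_I, Complex.conj_ofReal]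
    have : ∀ q : ℚ, (starRingEnd ℂ) (q : ℂ) = q := fun q => by
      simp
    rw [this, this, this]
    ring
  rw [hcj] at h'
  have e1 : (x i : ℂ) = ((f j + f j') * ((1 / 2 : ℚ) : ℂ) - (r i : ℂ)) * ((N + 1 : ℚ) : ℂ) := by
    rw [h, h']
    simp only [sq]
    push_cast
    field_simp
    ring
  have e2 : (y i : ℂ) = ((f j - f j') * ((1 / 2 : ℚ) : ℂ) * (-I) - (s i : ℂ)) *
      ((N + 1 : ℚ) : ℂ) := by
    rw [h, h']
    simp only [sq]
    push_cast
    field_simp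
    ring_nf
    simp only [I_sq]
    ring
  constructor
  · rw [e1]
    exact (((h1.add h2).mul (hrat _)).sub (hrat _)).mul (hrat _)
  · rw [e2]
    exact ((((h1.sub h2).mul (hrat _)).mul hI.neg).sub (hrat _)).mul (hrat _)

section

variable (p : Fin 8 → Fin 2 → ℝ)

/-- generic hermitian configurations -/
noncomputable def zs (N : ℕ) : Fin 8 → ℂ :=
  tw (sq q1 q2 (fun i => p (ca i) 0) (fun i => p (ca i) 1) N)

/-- generic hermitian configurations -/
noncomputable def ws (N : ℕ) : Fin 8 → ℂ :=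
  tw (sq q3 q4 (fun i => p (sg (ca i)) 0) (fun i => p (sg (ca i)) 1) N)

theorem gen_s (hp : AlgebraicIndependent ℚ (fun x : Fin 8 × Fin 2 => p x.1 x.2)) (N : ℕ) :
    Gen (zs p N) (ws p N) := by
  have hp' : AlgebraicIndependent ℚ (fun x : Fin 8 × Fin 2 => (p x.1 x.2 : ℂ)) :=
    hp.map' (f := (Complex.ofRealAm).restrictScalars ℚ) Complex.ofReal_injective
  refine indep_of_card card_ranges _ hp' _ ?_
  rintro ⟨v, k⟩
  obtain ⟨i, rfl | rfl⟩ := ca_cases v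
  · have h1 := sq_alg q1 q2 (fun i => p (ca i) 0) (fun i => p (ca i) 1) N i
      (Sum.elim (zs p N) (ws p N)) (j := Sum.inl (ca i)) (j' := Sum.inl (sg (ca i)))
      (by simp [zs, tw_ca]) (by simp [zs, tw_ca, tw_sg])
    fin_cases k
    · exact h1.1
    · exact h1.2
  · have h1 := sq_alg q3 q4 (fun i => p (sg (ca i)) 0) (fun i => p (sg (ca i)) 1) N i
      (Sum.elim (zs p N) (ws p N)) (j := Sum.inr (ca i)) (j' := Sum.inr (sg (ca i)))
      (by simp [ws, tw_ca]) (by simp [ws, tw_ca, tw_sg])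
    fin_cases k
    · exact h1.1
    · exact h1.2

theorem tw_tendsto {a : ℕ → Fin 4 → ℂ} {b : Fin 4 → ℂ}
    (h : ∀ i, Tendsto (fun N => a N i) atTop (𝓝 (b i))) (i : Fin 8) :
    Tendsto (fun N => tw (a N) i) atTop (𝓝 (tw b i)) := by
  obtain ⟨j, rfl | rfl⟩ := ca_cases i
  · simp only [tw_ca]; exact h j
  · simp only [tw_sg, tw_ca]
    exact (Complex.continuous_conj.tendsto _).comp (h j)

theorem JJ_tw (a b : Fin 4 → ℂ) : JJ (DD (tw a) (tw b)) = DD (tw a) (tw b) := by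
  rw [JJ_DD]
  congr 1
  · funext i; rw [tw_sg, conj_conj]
  · funext i; rw [tw_sg, conj_conj]

theorem real_tw (a b : Fin 4 → ℂ) (i : Fin 8) :
    ((DD (tw a) (tw b) i (sg i)).re : ℂ) = DD (tw a) (tw b) i (sg i) := by
  have h1 := congrFun (congrFun (JJ_tw a b) i) (sg i)
  simp only [JJ, sg_sg] at h1
  rw [DD_comm] at h1
  exact (Complex.conj_eq_iff_real.1 h1).elim fun r hr => by rw [hr]; simp

theorem ds_tendsto (i j : Fin 8) :
    Tendsto (fun N => DD (zs p N) (ws p N) i j) atTop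
      (𝓝 (DD (tw (fun i => (q1 i : ℂ) + (q2 i : ℂ) * I)) (tw (fun i => (q3 i : ℂ) +
        (q4 i : ℂ) * I)) i j)) := by
  have hz := tw_tendsto (sq_tendsto q1 q2 (fun i => p (ca i) 0) (fun i => p (ca i) 1))
  have hw := tw_tendsto (sq_tendsto q3 q4 (fun i => p (sg (ca i)) 0) (fun i => p (sg (ca i)) 1))
  exact ((hz i).sub (hz j)).mul ((hw i).sub (hw j))

theorem uniq_ev : ∀ᶠ N in atTop, ∀ D ∈ SS (DD (zs p N) (ws p N)), JJ D = D →
    D = DD (zs p N) (ws p N) := by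
  by_contra hcon
  have hfr : ∃ᶠ N in atTop, ¬ ∀ D ∈ SS (DD (zs p N) (ws p N)), JJ D = D →
    D = DD (zs p N) (ws p N) := Filter.not_eventually.1 hcon
  have t37 := ds_tendsto p 3 7
  have t04 := ds_tendsto p 0 4
  have t15 := ds_tendsto p 1 5
  have t07 := ds_tendsto p 0 7
  have t17 := ds_tendsto p 1 7
  have t27 := ds_tendsto p 2 7
  have t06 := ds_tendsto p 0 6
  have t16 := ds_tendsto p 1 6
  have v37 : DD (tw (fun i => (q1 i : ℂ) + (q2 i : ℂ) * I)) (tw (fun i => (q3 i : ℂ) +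
        (q4 i : ℂ) * I)) 3 7 = 4 := by
    simp [DD, tw, q1, q2, q3, q4, c2]
    ring_nf
    simp only [I_sq]
    ring
  have v04 : DD (tw (fun i => (q1 i : ℂ) + (q2 i : ℂ) * I)) (tw (fun i => (q3 i : ℂ) +
        (q4 i : ℂ) * I)) 0 4 = -8 := by
    simp [DD, tw, q1, q2, q3, q4, c2]
    ring_nf
    simp only [I_sq]
    ring
  have v15 : DD (tw (fun i => (q1 i : ℂ) + (q2 i : ℂ) * I)) (tw (fun i => (q3 i : ℂ) +
        (q4 i : ℂ) * I)) 1 5 = -8 := by
    simp [DD, tw, q1, q2, q3, q4, c2]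
    ring_nf
    simp only [I_sq]
    ring
  have v07 : DD (tw (fun i => (q1 i : ℂ) + (q2 i : ℂ) * I)) (tw (fun i => (q3 i : ℂ) +
        (q4 i : ℂ) * I)) 0 7 = 0 := by
    simp [DD, tw, q1, q2, q3, q4]
  have v17 : DD (tw (fun i => (q1 i : ℂ) + (q2 i : ℂ) * I)) (tw (fun i => (q3 i : ℂ) +
        (q4 i : ℂ) * I)) 1 7 = 0 := by
    simp [DD, tw, q1, q2, q3, q4]
  have v27 : DD (tw (fun i => (q1 i : ℂ) + (q2 i : ℂ) * I)) (tw (fun i => (q3 i : ℂ) +
        (q4 i : ℂ) * I)) 2 7 = 0 := by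
    simp [DD, tw, q1, q2, q3, q4]
  have v06 : DD (tw (fun i => (q1 i : ℂ) + (q2 i : ℂ) * I)) (tw (fun i => (q3 i : ℂ) +
        (q4 i : ℂ) * I)) 0 6 = I := by
    simp [DD, tw, q1, q2, q3, q4]
    ring_nf
  have v16 : DD (tw (fun i => (q1 i : ℂ) + (q2 i : ℂ) * I)) (tw (fun i => (q3 i : ℂ) +
        (q4 i : ℂ) * I)) 1 6 = 1 + I := by
    simp [DD, tw, q1, q2, q3, q4]
    ring_nf
  rw [v37] at t37
  rw [v04] at t04
  rw [v15] at t15
  rw [v07] at t07
  rw [v17] at t17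
  rw [v27] at t27
  rw [v06] at t06
  rw [v16] at t16
  have s37 : ∀ᶠ N in atTop, 0 < (DD (zs p N) (ws p N) 3 7).re := by
    have h1 := (Complex.continuous_re.tendsto _).comp t37
    exact h1.eventually (lt_mem_nhds (by norm_num))
  have s04 : ∀ᶠ N in atTop, (DD (zs p N) (ws p N) 0 4).re < 0 := by
    have h1 := (Complex.continuous_re.tendsto _).comp t04
    exact h1.eventually (gt_mem_nhds (by norm_num))
  have hfr2 := hfr.and_eventually (s37.and s04)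
  let X : Type := {N : ℕ // (¬ ∀ D ∈ SS (DD (zs p N) (ws p N)), JJ D = D →
    D = DD (zs p N) (ws p N)) ∧ 0 < (DD (zs p N) (ws p N) 3 7).re ∧
    (DD (zs p N) (ws p N) 0 4).re < 0}
  let F : Filter X := Filter.comap (fun x : X => x.1) atTop
  haveI : F.NeBot := by
    rw [Filter.comap_neBot_iff_frequently]
    refine hfr2.mono fun N hN => ⟨⟨N, hN⟩, rfl⟩
  let U : Ultrafilter X := Ultrafilter.of F
  have hU : Tendsto (fun x : X => x.1) U atTop :=
    (Filter.tendsto_comap (f := fun x : X => x.1) (x := atTop)).mono_left (Ultrafilter.of_le F)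
  have hbad : ∀ x : X, ∃ D, D ∈ SS (DD (zs p x.1) (ws p x.1)) ∧ JJ D = D ∧
      D ≠ DD (zs p x.1) (ws p x.1) := by
    intro x
    have := x.2.1
    push Not at this
    exact this
  choose D hD1 hD2 hD3 using hbad
  have hm : ∀ x : X, DD (zs p x.1) (ws p x.1) ∈ SS (DD (zs p x.1) (ws p x.1)) :=
    fun x => ⟨_, _, fun _ _ _ => rfl, rfl⟩
  have r37 : ∀ N, DD (zs p N) (ws p N) 3 7 = (((DD (zs p N) (ws p N) 3 7).re : ℝ) : ℂ) :=
    fun N => (real_tw _ _ 3).symm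
  have r04 : ∀ N, DD (zs p N) (ws p N) 0 4 = (((DD (zs p N) (ws p N) 0 4).re : ℝ) : ℂ) :=
    fun N => (real_tw _ _ 0).symm
  have hN1 := fun x : X => normal (hD1 x) (hD2 x) (r37 x.1) (r04 x.1) x.2.2.1 x.2.2.2
  have hN2 := fun x : X => normal (hm x) (JJ_tw _ _) (r37 x.1) (r04 x.1) x.2.2.1 x.2.2.2
  choose Z W hs hDN using hN1
  choose Z' W' hs' hDN' using hN2
  have cn : ∀ x : X, (starRingEnd ℂ) (DD (zs p x.1) (ws p x.1) 3 7) = DD (zs p x.1) (ws p x.1) 3 7 := by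
    intro x
    rw [r37 x.1]
    exact Complex.conj_ofReal _
  have cn0 : ∀ x : X, DD (zs p x.1) (ws p x.1) 3 7 ≠ 0 := by
    intro x
    rw [r37 x.1]
    exact_mod_cast x.2.2.1.ne'
  have tn : Tendsto (fun x : X => DD (zs p x.1) (ws p x.1) 3 7) U (𝓝 4) := t37.comp hU
  have tm : ∀ i, Tendsto (fun x : X => (![DD (zs p x.1) (ws p x.1) 0 6,
      DD (zs p x.1) (ws p x.1) 1 6] : Fin 2 → ℂ) i) U (𝓝 (Pm i)) := by
    intro i
    fin_cases i
    · exact t06.comp hU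
    · exact t16.comp hU
  have tv : ∀ i, Tendsto (fun x : X => (![DD (zs p x.1) (ws p x.1) 0 4,
      DD (zs p x.1) (ws p x.1) 1 5] : Fin 2 → ℂ) i) U (𝓝 (-8)) := by
    intro i
    fin_cases i
    · exact t04.comp hU
    · exact t15.comp hU
  have ta : ∀ i, Tendsto (fun x : X => (![DD (zs p x.1) (ws p x.1) 0 7,
      DD (zs p x.1) (ws p x.1) 1 7, DD (zs p x.1) (ws p x.1) 2 7] : Fin 3 → ℂ) i) U (𝓝 0) := by
    intro i
    fin_cases i
    · exact t07.comp hU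
    · exact t17.comp hU
    · exact t27.comp hU
  obtain ⟨Z1, W1, g1, g2, g3⟩ := conv' U cn cn0 tn tm tv ta hs
  obtain ⟨Z2, W2, k1, k2, k3⟩ := conv' U cn cn0 tn tm tv ta hs'
  have hfin := loc U tn g1 k1 g3 k3
  obtain ⟨x, hx1, hx2⟩ := hfin.exists
  apply hD3 x
  rw [hDN x, ← g2 x, hx1, hx2, k2 x, ← hDN' x]

end

/-- a finite set with an involution having exactly one fixed point is odd -/
theorem odd_of_fixed {α : Type} (S : Set α) (hS : S.Finite) (J : α → α) (hJ : ∀ a, J (J a) = a)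
    (hJS : ∀ a ∈ S, J a ∈ S) (a0 : α) (ha0 : a0 ∈ S) (hfix : J a0 = a0)
    (huniq : ∀ a ∈ S, J a = a → a = a0) : Odd S.ncard := by
  classical
  haveI : Fintype S := hS.fintype
  let f : Function.End S := fun a => ⟨J a.1, hJS a.1 a.2⟩
  have hf : f ^ (2 ^ 1) = 1 := by
    funext a
    change f (f a) = a
    exact Subtype.ext (hJ a.1)
  haveI : Fact (Nat.Prime 2) := ⟨Nat.prime_two⟩
  have h1 := Equiv.Perm.card_fixedPoints_modEq (p := 2) hf
  have h2 : Fintype.card (Function.fixedPoints f) = 1 := by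
    rw [Fintype.card_eq_one_iff]
    refine ⟨⟨⟨a0, ha0⟩, Subtype.ext hfix⟩, ?_⟩
    rintro ⟨⟨b, hb⟩, hb2⟩
    have h3 : J b = b := congrArg Subtype.val hb2
    exact Subtype.ext (Subtype.ext (huniq b hb h3))
  rw [h2] at h1
  rw [Set.ncard_eq_toFinset_card', Set.toFinset_card, Nat.odd_iff]
  exact h1

end Pool.Agent.K7.H27.TH
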