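import Pool.Agent.K7.H27.TH.Len
import Pool.Agent.K7.H27.TH.Odd

/-!
# Finiteness, independence of the lengths, odd number of realisations
-/

set_option autoImplicit false
set_option linter.style.haveILetI false

namespace Pool.Agent.K7.H27.TH

open Pool.Agent.H789R3 Complex Filter Topology

/-- planar coordinates -/
noncomputable def qq (z w : Fin 8 → ℂ) : Fin 8 → Fin 2 → ℂ :=
  fun v => ![(z v + w v) / 2, (z v - w v) / (2 * I)]

/-- isotropic coordinates -/
noncomputable def zz (q : Fin 8 → Fin 2 → ℂ) : Fin 8 → ℂ := fun v => q v 0 + I * q v 1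

/-- isotropic coordinates -/
noncomputable def ww (q : Fin 8 → Fin 2 → ℂ) : Fin 8 → ℂ := fun v => q v 0 - I * q v 1

theorem DD_zz (q : Fin 8 → Fin 2 → ℂ) (i j : Fin 8) :
    DD (zz q) (ww q) i j = ∑ k, (q i k - q j k) ^ 2 := by
  simp only [DD, zz, ww, Fin.sum_univ_two]
  linear_combination -((q i 1 - q j 1) ^ 2) * I_mul_I

theorem zz_qq (z w : Fin 8 → ℂ) : zz (qq z w) = z := by
  funext v
  simp only [zz, qq, Matrix.cons_val_zero, Matrix.cons_val_one]
  field_simp
  ring

theorem ww_qq (z w : Fin 8 → ℂ) : ww (qq z w) = w := by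
  funext v
  simp only [ww, qq, Matrix.cons_val_zero, Matrix.cons_val_one]
  field_simp
  ring

theorem DD_qq (z w : Fin 8 → ℂ) (i j : Fin 8) :
    ∑ k, (qq z w i k - qq z w j k) ^ 2 = DD z w i j := by
  rw [← DD_zz, zz_qq, ww_qq]

theorem gen_qq {z w : Fin 8 → ℂ} (h : Gen z w) :
    AlgebraicIndependent ℚ (fun x : Fin 8 × Fin 2 => qq z w x.1 x.2) := by
  refine indep_of_card card_ranges.symm _ h _ ?_
  set f := (fun x : Fin 8 × Fin 2 => qq z w x.1 x.2) with hf
  have hI := alg_I f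
  rintro (v | v)
  · have h1 := mem_adj f (v, 0)
    have h2 := mem_adj f (v, 1)
    have h3 : Sum.elim z w (Sum.inl v) = f (v, 0) + I * f (v, 1) := by
      have := congrFun (zz_qq z w) v
      simpa [zz, hf] using this.symm
    rw [h3]
    exact h1.add (hI.mul h2)
  · have h1 := mem_adj f (v, 0)
    have h2 := mem_adj f (v, 1)
    have h3 : Sum.elim z w (Sum.inr v) = f (v, 0) - I * f (v, 1) := by
      have := congrFun (ww_qq z w) v
      simpa [ww, hf] using this.symm
    rw [h3]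
    exact h1.sub (hI.mul h2)

theorem SS_eq (q : Fin 8 → Fin 2 → ℂ) : SS (DD (zz q) (ww q)) =
    {D : Fin 8 → Fin 8 → ℂ | ∃ q' : Fin 8 → Fin 2 → ℂ, (∀ e ∈ EE, dC q' e = dC q e) ∧
      D = fun u v => ∑ i, (q' u i - q' v i) ^ 2} := by
  ext D
  constructor
  · rintro ⟨z, w, h1, rfl⟩
    refine ⟨qq z w, fun e he => ?_, ?_⟩
    · induction e using Sym2.ind with
      | _ u v =>
        change ∑ i, (qq z w u i - qq z w v i) ^ 2 = ∑ i, (q u i - q v i) ^ 2
        rw [DD_qq, ← DD_zz]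
        exact h1 u v ((mem_EE u v).1 he)
    · funext u v
      rw [DD_qq]
  · rintro ⟨q', h1, rfl⟩
    refine ⟨zz q', ww q', fun i j hij => ?_, ?_⟩
    · have h2 := h1 s(i, j) ((mem_EE i j).2 hij)
      change ∑ k, (q' i k - q' j k) ^ 2 = ∑ k, (q i k - q j k) ^ 2 at h2
      rw [← DD_zz, ← DD_zz] at h2
      exact h2
    · funext u v
      rw [DD_zz]

theorem finSS {z w : Fin 8 → ℂ} (h : Gen z w) : (SS (DD z w)).Finite := by
  have hq := gen_qq h
  have h0 : dC (qq z w) s(3, 7) ≠ 0 := by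
    change ∑ i, (qq z w 3 i - qq z w 7 i) ^ 2 ≠ 0
    rw [DD_qq]
    unfold DD
    have h1 : z 3 ≠ z 7 := fun he => by
      have := h.injective (a₁ := Sum.inl 3) (a₂ := Sum.inl 7) he
      simp at this
    have h2 : w 3 ≠ w 7 := fun he => by
      have := h.injective (a₁ := Sum.inr 3) (a₂ := Sum.inr 7) he
      simp at this
    exact mul_ne_zero (sub_ne_zero.2 h1) (sub_ne_zero.2 h2)
  have h1 := (main_lower (3 : Fin 8) 7 EE ((mem_EE 3 7).2 (by decide)) EE_diag
    (by rw [EE_card]; rfl) (fun S hS => by convert EE_sparse S hS) (qq z w) hq h0).1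
  rw [← SS_eq, zz_qq, ww_qq] at h1
  exact h1

/-- first endpoints -/
def el : Fin 13 → Fin 8 := ![0, 0, 0, 1, 1, 1, 2, 2, 2, 3, 3, 3, 3]

/-- second endpoints -/
def er : Fin 13 → Fin 8 := ![4, 6, 7, 5, 6, 7, 4, 5, 7, 4, 5, 6, 7]

theorem el_er : ∀ e, adj (el e) (er e) = true := by decide

theorem el_er_inj : ∀ e f, s(el e, er e) = s(el f, er f) → e = f := by decide

/-- the number of an edge -/
def lk (i j : Fin 8) : Option (Fin 13) :=
  (List.finRange 13).find? (fun e => (el e == i && er e == j) || (el e == j && er e == i))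

theorem lk_spec : ∀ i j, adj i j = true → ∃ e, lk i j = some e ∧
    ((el e = i ∧ er e = j) ∨ (el e = j ∧ er e = i)) := by decide

/-- lengths -/
def len {Ω : Type} [Field Ω] (z w : Fin 8 → Ω) : Fin 13 → Ω := fun e => DD z w (el e) (er e)

/-- the matrix with prescribed lengths -/
def mt {Ω : Type} [Field Ω] (l : Fin 13 → Ω) : Fin 8 → Fin 8 → Ω :=
  fun i j => match lk i j with
    | some e => l e
    | none => 0

theorem mt_len {Ω : Type} [Field Ω] (z w : Fin 8 → Ω) (i j : Fin 8) (h : adj i j = true) :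
    mt (len z w) i j = DD z w i j := by
  obtain ⟨e, h1, h2⟩ := lk_spec i j h
  unfold mt
  rw [h1]
  rcases h2 with ⟨rfl, rfl⟩ | ⟨rfl, rfl⟩
  · rfl
  · exact DD_comm _ _ _ _

theorem mp_mt {Ω Ω' : Type} [Field Ω] [Field Ω'] (φ : Ω →+* Ω') (l : Fin 13 → Ω) :
    mp φ (mt l) = mt (fun e => φ (l e)) := by
  funext i j
  unfold mp mt
  cases lk i j with
  | none => simp
  | some e => rfl

theorem SS_len {Ω : Type} [Field Ω] (z w : Fin 8 → Ω) : SS (DD z w) = SS (mt (len z w)) :=
  SS_congr fun i j h => (mt_len z w i j h).symm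

theorem ST_len {Ω : Type} [Field Ω] (z w : Fin 8 → Ω) : ST (DD z w) = ST (mt (len z w)) :=
  ST_congr fun i j h => (mt_len z w i j h).symm

theorem len_indep {z w : Fin 8 → ℂ} (h : Gen z w) : AlgebraicIndependent ℚ (len z w) := by
  have hq := gen_qq h
  have h1 := lengths_indep (3 : Fin 8) 7 EE ((mem_EE 3 7).2 (by decide)) EE_diag
    (by rw [EE_card]; rfl) (fun S hS => by convert EE_sparse S hS) (qq z w) hq
  let f : Fin 13 → EE := fun e => ⟨s(el e, er e), (mem_EE _ _).2 (el_er e)⟩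
  have hf : Function.Injective f := fun e e' he => el_er_inj e e' (congrArg Subtype.val he)
  have h2 := h1.comp f hf
  have h3 : (fun e => (fun e : EE => dC (qq z w) e.1) (f e)) = len z w := by
    funext e
    change ∑ i, (qq z w (el e) i - qq z w (er e) i) ^ 2 = _
    rw [DD_qq]; rfl
  rw [← h3]
  exact h2

/-- every generic configuration has an odd number of (nondegenerate) realisations -/
theorem odd_gen (p : Fin 8 → Fin 2 → ℝ)
    (hp : AlgebraicIndependent ℚ (fun x : Fin 8 × Fin 2 => p x.1 x.2)) {z w : Fin 8 → ℂ}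
    (h : Gen z w) : Odd (ST (DD z w)).ncard := by
  obtain ⟨N, hN, hN2⟩ : ∃ N, (∀ D ∈ SS (DD (zs p N) (ws p N)), JJ D = D →
      D = DD (zs p N) (ws p N)) ∧ gg (DD (zs p N) (ws p N)) ≠ 0 := by
    refine ((uniq_ev p).and ?_).exists
    have t37 := ds_tendsto p 3 7
    have t07 := ds_tendsto p 0 7
    have t03 := ds_tendsto p 0 3
    have t := ((((t37.add t07).sub t03).pow 2).sub ((t37.const_mul 4).mul t07))
    refine t.eventually_ne ?_
    simp [DD, tw, q1, q2, q3, q4]
    ring_nf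
    simp only [I_sq]
    norm_num
  have hg := gen_s p hp N
  rw [ncard_gen h hg]
  have hJ : JJ (DD (zs p N) (ws p N)) = DD (zs p N) (ws p N) := JJ_tw _ _
  have hself : DD (zs p N) (ws p N) ∈ SS (DD (zs p N) (ws p N)) :=
    ⟨_, _, fun _ _ _ => rfl, rfl⟩
  refine odd_of_fixed _ ((finSS hg).subset fun D hD => hD.1) JJ JJ_JJ
    (fun D hD => JJ_ST hJ hD) (DD (zs p N) (ws p N)) ⟨hself, hN2, ?_⟩ hJ
    (fun D hD => hN D hD.1)
  rw [← hJ, gg2_JJ]
  exact (map_ne_zero _).2 hN2

end Pool.Agent.K7.H27.TH
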