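import Pool.Agent.K7.H27.TH.Orb

/-!
# The product of the invariants is a rational function
-/

set_option autoImplicit false
set_option linter.style.haveILetI false

open Cardinal

namespace Pool.Agent.K7.H27.TH

theorem card_PP : #ℂ = #PP := by
  apply le_antisymm
  · exact Cardinal.mk_le_of_injective cst.injective
  · have h1 : #PP ≤ #(ℚ → ℂ) := by
      refine Cardinal.mk_le_of_injective (f := fun x q => cf x q) ?_
      intro x y h
      exact ext_cf fun q => congrFun h q
    refine h1.trans ?_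
    rw [← Cardinal.power_def, Cardinal.mk_complex, Cardinal.mkRat, Cardinal.continuum_power_aleph0]

/-- elements fixed by the automorphisms are rational functions of a transcendence basis -/
theorem rat_of_fixed {s : Type} (v : s → ℂ) (hv : IsTranscendenceBasis ℚ v) (N : ℂ)
    (hN : ∀ φ : ℂ ≃+* ℂ, (∀ i, φ (v i) = v i) → φ N = N) :
    ∃ P Q : MvPolynomial s ℚ, N = MvPolynomial.aeval v P / MvPolynomial.aeval v Q := by
  let K0 := IntermediateField.adjoin ℚ (Set.range v)
  haveI : Algebra.IsAlgebraic K0 ℂ := hv.isAlgebraic_field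
  haveI : IsAlgClosure K0 ℂ := ⟨inferInstance, inferInstance⟩
  haveI : IsGalois K0 ℂ := inferInstance
  have h1 : N ∈ Set.range (algebraMap K0 ℂ) :=
    (InfiniteGalois.mem_range_algebraMap_iff_fixed N).2 (fun f =>
      hN f.toRingEquiv (fun i => f.commutes
        (⟨v i, IntermediateField.subset_adjoin _ _ ⟨i, rfl⟩⟩ : K0)))
  obtain ⟨y, rfl⟩ := h1
  exact (IntermediateField.mem_adjoin_range_iff ℚ v _).1 y.2

theorem map_indep {Ω Ω' : Type} [Field Ω] [Field Ω'] [CharZero Ω] [CharZero Ω'] {ι : Type}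
    (φ : Ω →+* Ω') {l : ι → Ω} (hl : AlgebraicIndependent ℚ l) :
    AlgebraicIndependent ℚ (fun e => φ (l e)) :=
  hl.map' (f := φ.toRatAlgHom) φ.injective

section

variable {Ω Ω' : Type} [Field Ω] [Field Ω'] [IsAlgClosed Ω] [IsAlgClosed Ω'] [CharZero Ω]
  [CharZero Ω']

theorem image_ST (hK : ℵ₀ < #Ω) (hKL : #Ω = #Ω') (φ : Ω →+* Ω') {l : Fin 13 → Ω}
    (hl : AlgebraicIndependent ℚ l) (hfin : (ST (mt l)).Finite) {l' : Fin 13 → Ω'}
    (hl' : ∀ e, φ (l e) = l' e) :
    (ST (mt l')).Finite ∧ mp φ '' ST (mt l) = ST (mt l') := by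
  have hind := map_indep φ hl
  have h0 : (fun e => φ (l e)) = l' := funext hl'
  rw [h0] at hind
  obtain ⟨ψ, hψ⟩ := exists_iso hK hKL _ _ hl hind
  have h1 : mp (ψ : Ω →+* Ω') (mt l) = mt l' := by
    rw [mp_mt]
    congr 1
    funext e
    exact hψ e
  have h2 : mp φ (mt l) = mt l' := by
    rw [mp_mt, h0]
  have h3 : (ST (mt l')).Finite := by
    rw [← h1, ← mp_equiv_ST]
    exact hfin.image _
  refine ⟨h3, ?_⟩
  apply Set.eq_of_subset_of_ncard_le _ _ h3
  · rintro _ ⟨D, hD, rfl⟩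
    rw [← h2]
    exact mp_memT φ hD
  · rw [← h1, ncard_ST, Set.ncard_image_of_injective _ (mp_injective _)]

theorem prod_transfer (hK : ℵ₀ < #Ω) (hKL : #Ω = #Ω') (φ : Ω →+* Ω') {l : Fin 13 → Ω}
    (hl : AlgebraicIndependent ℚ l) (hfin : (ST (mt l)).Finite) {l' : Fin 13 → Ω'}
    (hl' : ∀ e, φ (l e) = l' e) (hfin' : (ST (mt l')).Finite) :
    φ (∏ D ∈ hfin.toFinset, gg D) = ∏ D ∈ hfin'.toFinset, gg D := by
  classical
  have h1 := (image_ST hK hKL φ hl hfin hl').2
  have h2 : hfin'.toFinset = hfin.toFinset.image (mp φ) := by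
    ext D
    rw [Set.Finite.mem_toFinset, ← h1, Finset.mem_image]
    constructor
    · rintro ⟨D', hD', rfl⟩
      exact ⟨D', (Set.Finite.mem_toFinset _).2 hD', rfl⟩
    · rintro ⟨D', hD', rfl⟩
      exact ⟨D', (Set.Finite.mem_toFinset _).1 hD', rfl⟩
  rw [h2, Finset.prod_image (fun x _ y _ h => mp_injective φ h), map_prod]
  exact Finset.prod_congr rfl fun D _ => (gg_mp φ D).symm

end

/-- A substitution of a polynomial variable. -/
noncomputable def sb {s : Type} [DecidableEq s] (i0 : s) (x : s → ℝ) :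
    MvPolynomial s ℚ →ₐ[ℚ] Polynomial ℝ :=
  MvPolynomial.aeval (fun i => if i = i0 then Polynomial.X else Polynomial.C (x i))

theorem sb_hom {s Ω : Type} [DecidableEq s] [Field Ω] [CharZero Ω] (i0 : s) (x : s → ℝ)
    (ρ : Polynomial ℝ →+* Ω) (f : MvPolynomial s ℚ) :
    ρ (sb i0 x f) = MvPolynomial.aeval
      (fun i => if i = i0 then ρ Polynomial.X else ρ (Polynomial.C (x i))) f := by
  have h1 := MvPolynomial.comp_aeval_apply (φ := ρ.toRatAlgHom)
    (f := fun i => if i = i0 then (Polynomial.X : Polynomial ℝ) else Polynomial.C (x i)) f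
  have h2 : (fun i => if i = i0 then ρ Polynomial.X else ρ (Polynomial.C (x i))) =
      (fun i => ρ.toRatAlgHom (if i = i0 then (Polynomial.X : Polynomial ℝ) else
        Polynomial.C (x i))) := by
    funext i
    split_ifs <;> rfl
  rw [h2]
  exact h1

theorem sb_eval {s : Type} [DecidableEq s] (i0 : s) (x : s → ℝ) (c : ℝ) (f : MvPolynomial s ℚ) :
    (((sb i0 x f).eval c : ℝ) : ℂ) =
      MvPolynomial.aeval (fun i => if i = i0 then (c : ℂ) else (x i : ℂ)) f := by
  have h := sb_hom i0 x (Complex.ofRealHom.comp (Polynomial.evalRingHom c)) f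
  have h2 : (fun i => if i = i0 then (c : ℂ) else (x i : ℂ)) = fun i => if i = i0 then
      (Complex.ofRealHom.comp (Polynomial.evalRingHom c)) Polynomial.X else
      (Complex.ofRealHom.comp (Polynomial.evalRingHom c)) (Polynomial.C (x i)) := by
    funext i
    split_ifs <;> simp
  rw [h2, ← h]
  rfl

theorem sb_ev {s : Type} [DecidableEq s] (i0 : s) (x : s → ℝ) (t : ℂ) (f : MvPolynomial s ℚ) :
    ev t ((sb i0 x f).map (algebraMap ℝ ℂ)) =
      MvPolynomial.aeval (fun i => if i = i0 then cst t + uu else cst (x i : ℂ)) f := by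
  have h := sb_hom i0 x ((Polynomial.eval₂RingHom cst (cst t + uu)).comp
    (Polynomial.mapRingHom (algebraMap ℝ ℂ))) f
  have h2 : (fun i => if i = i0 then cst t + uu else cst (x i : ℂ)) = fun i => if i = i0 then
      ((Polynomial.eval₂RingHom cst (cst t + uu)).comp
        (Polynomial.mapRingHom (algebraMap ℝ ℂ))) Polynomial.X else
      ((Polynomial.eval₂RingHom cst (cst t + uu)).comp
        (Polynomial.mapRingHom (algebraMap ℝ ℂ))) (Polynomial.C (x i)) := by
    funext i
    split_ifs <;> simp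
  rw [h2, ← h]
  rfl

theorem sb_ne {s : Type} [DecidableEq s] (i0 : s) {x : s → ℝ} (hx : AlgebraicIndependent ℚ x)
    {f : MvPolynomial s ℚ} (hf : f ≠ 0) : sb i0 x f ≠ 0 := by
  intro h
  apply hf
  apply hx
  rw [map_zero]
  have h1 := sb_hom i0 x (Polynomial.evalRingHom (x i0)) f
  rw [h, map_zero] at h1
  have h2 : (fun i => if i = i0 then (Polynomial.evalRingHom (x i0)) Polynomial.X else
      (Polynomial.evalRingHom (x i0)) (Polynomial.C (x i))) = x := by
    funext i
    split_ifs with h3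
    · simp [h3]
    · simp
  rw [h2] at h1
  exact h1.symm

/-- independence of the perturbed point -/
theorem ind_ev {s : Type} [DecidableEq s] (i0 : s) {x : s → ℝ} (hx : AlgebraicIndependent ℚ x)
    (t : ℂ) : AlgebraicIndependent ℚ (fun i => if i = i0 then cst t + uu else cst (x i : ℂ)) := by
  rw [AlgebraicIndependent, injective_iff_map_eq_zero]
  intro f hf
  by_contra hne
  have h1 := sb_ne i0 hx hne
  rw [← sb_ev] at hf
  refine ev_ne ?_ hf
  rw [Ne, Polynomial.map_eq_zero]
  exact h1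

/-- independence of the reflected point -/
theorem ind_neg {s : Type} [DecidableEq s] (i0 : s) {x : s → ℝ} (hx : AlgebraicIndependent ℚ x) :
    AlgebraicIndependent ℚ (fun i => if i = i0 then ((- x i0 : ℝ) : ℂ) else (x i : ℂ)) := by
  have hxC : AlgebraicIndependent ℚ (fun i => (x i : ℂ)) :=
    hx.map' (f := (Complex.ofRealAm).restrictScalars ℚ) Complex.ofReal_injective
  rw [AlgebraicIndependent, injective_iff_map_eq_zero]
  intro f hf
  let θ : MvPolynomial s ℚ →ₐ[ℚ] MvPolynomial s ℚ :=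
    MvPolynomial.aeval (fun i => if i = i0 then -MvPolynomial.X i else MvPolynomial.X i)
  have hθ : ∀ g, θ (θ g) = g := by
    intro g
    have h1 : θ.comp θ = AlgHom.id ℚ _ := by
      apply MvPolynomial.algHom_ext
      intro i
      simp only [AlgHom.comp_apply, θ, MvPolynomial.aeval_X, AlgHom.id_apply]
      split_ifs with h
      · rw [map_neg, MvPolynomial.aeval_X, if_pos h, neg_neg]
      · rw [MvPolynomial.aeval_X, if_neg h]
    exact congrArg (fun F => F g) h1
  have h2 : MvPolynomial.aeval (fun i => (x i : ℂ)) (θ f) = 0 := by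
    rw [← hf]
    simp only [θ]
    rw [MvPolynomial.comp_aeval_apply]
    congr 1
    congr 1
    funext i
    split_ifs with h
    · rw [map_neg, MvPolynomial.aeval_X, h]; simp
    · rw [MvPolynomial.aeval_X]
  have h3 : θ f = 0 := hxC (h2.trans (map_zero _).symm)
  rw [← hθ f, h3, map_zero]

/-- the data obtained from a transcendence basis -/
theorem exists_frac {m : Fin 13 → ℝ} (hm : AlgebraicIndependent ℚ m)
    (hfin : (ST (mt (fun e => (m e : ℂ)))).Finite) :
    ∃ R S : Polynomial ℝ,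
      (∀ c : ℝ, (c = m 2 ∨ c = - m 2) →
        ∀ hf : (ST (mt (fun e => if e = 2 then (c : ℂ) else (m e : ℂ)))).Finite,
        ∏ D ∈ hf.toFinset, gg D = ((R.eval c / S.eval c : ℝ) : ℂ)) ∧
      (∀ c : ℝ, (c = m 2 ∨ c = - m 2) →
        (ST (mt (fun e => if e = 2 then (c : ℂ) else (m e : ℂ)))).Finite) ∧
      (∀ t : ℝ, (ST (mt (fun e => if e = 2 then cst t + uu else cst (m e : ℂ)))).Finite) ∧
      (∀ t : ℝ, ∀ hf : (ST (mt (fun e => if e = 2 then cst t + uu else cst (m e : ℂ)))).Finite,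
        ∏ D ∈ hf.toFinset, gg D = ev t (R.map (algebraMap ℝ ℂ)) / ev t (S.map (algebraMap ℝ ℂ))) := by
  classical
  have hmC : AlgebraicIndependent ℚ (fun e => (m e : ℂ)) :=
    hm.map' (f := (Complex.ofRealAm).restrictScalars ℚ) Complex.ofReal_injective
  obtain ⟨s, hms, hs⟩ := exists_isTranscendenceBasis_superset hm.to_subtype_range
  let x : s → ℝ := fun i => i.1
  let v : s → ℂ := fun i => ((x i : ℝ) : ℂ)
  have hv : IsTranscendenceBasis ℚ v := hs.algebraMap_comp (A := ℂ)
  let j : Fin 13 → s := fun e => ⟨m e, hms ⟨e, rfl⟩⟩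
  have hj : Function.Injective j := fun a b h => hm.injective (congrArg Subtype.val h)
  have hjv : ∀ e, v (j e) = (m e : ℂ) := fun e => rfl
  let i0 : s := j 2
  have hK : ℵ₀ < #ℂ := by rw [Cardinal.mk_complex]; exact Cardinal.aleph0_lt_continuum
  set N : ℂ := ∏ D ∈ hfin.toFinset, gg D with hN
  obtain ⟨P, Q, hPQ⟩ := rat_of_fixed v hv N (fun φ hφ =>
    prod_transfer hK rfl (φ : ℂ →+* ℂ) hmC hfin (fun e => hφ (j e)) hfin)
  have htr : ∀ {Ω : Type} [Field Ω] [CharZero Ω] (φ : ℂ →+* Ω) (y : s → Ω),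
      (∀ i, φ (v i) = y i) → φ N = MvPolynomial.aeval y P / MvPolynomial.aeval y Q := by
    intro Ω _ _ φ y h
    have hA : ∀ f : MvPolynomial s ℚ, φ (MvPolynomial.aeval v f) = MvPolynomial.aeval y f := by
      intro f
      have h1 := MvPolynomial.comp_aeval_apply (φ := φ.toRatAlgHom) (f := v) f
      have h2 : (fun i => φ.toRatAlgHom (v i)) = y := funext h
      rw [h2] at h1
      exact h1
    rw [hPQ, map_div₀, hA, hA]
  have key : ∀ {Ω : Type} [Field Ω] [IsAlgClosed Ω] [CharZero Ω] (hΩ : #ℂ = #Ω) (y : s → Ω)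
      (hy : AlgebraicIndependent ℚ y) (l' : Fin 13 → Ω) (hl' : ∀ e, y (j e) = l' e),
      (ST (mt l')).Finite ∧ ∀ hf : (ST (mt l')).Finite,
        ∏ D ∈ hf.toFinset, gg D = MvPolynomial.aeval y P / MvPolynomial.aeval y Q := by
    intro Ω _ _ _ hΩ y hy l' hl'
    obtain ⟨φ, hφ⟩ := exists_hom_tb v y hv hy
    have h1 : ∀ e, φ ((m e : ℝ) : ℂ) = l' e := fun e => (hφ (j e)).trans (hl' e)
    refine ⟨(image_ST hK hΩ φ hmC hfin h1).1, fun hf => ?_⟩
    rw [← htr φ y hφ, hN]
    exact (prod_transfer hK hΩ φ hmC hfin h1 hf).symm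
  have hjl : ∀ {Ω : Type} [Field Ω] (a : Ω) (b : ℝ → Ω) (e : Fin 13),
      (fun i => if i = i0 then a else b (x i)) (j e) = if e = 2 then a else b (m e) := by
    intro Ω _ a b e
    change (if j e = j 2 then a else b (m e)) = _
    simp only [hj.eq_iff]
  have hreal : ∀ c : ℝ, (c = m 2 ∨ c = - m 2) →
      AlgebraicIndependent ℚ (fun i => if i = i0 then (c : ℂ) else (x i : ℂ)) := by
    rintro c (rfl | rfl)
    · have h1 : (fun i => if i = i0 then ((m 2 : ℝ) : ℂ) else (x i : ℂ)) = v := by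
        funext i
        split_ifs with h
        · rw [h]
        · rfl
      rw [h1]
      exact hv.1
    · exact ind_neg i0 hs.1
  refine ⟨sb i0 x P, sb i0 x Q, ?_, ?_, ?_, ?_⟩
  · intro c hc hf
    rw [(key rfl _ (hreal c hc) _ (hjl (c : ℂ) (fun r : ℝ => (r : ℂ)))).2 hf]
    push_cast
    rw [sb_eval, sb_eval]
  · intro c hc
    exact (key rfl _ (hreal c hc) _ (hjl (c : ℂ) (fun r : ℝ => (r : ℂ)))).1
  · intro t
    exact (key card_PP _ (ind_ev i0 hs.1 (t : ℂ)) _
      (hjl (cst t + uu) (fun r : ℝ => cst (r : ℂ)))).1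
  · intro t hf
    rw [(key card_PP _ (ind_ev i0 hs.1 (t : ℂ)) _
      (hjl (cst t + uu) (fun r : ℝ => cst (r : ℂ)))).2 hf, sb_ev, sb_ev]

end Pool.Agent.K7.H27.TH
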