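import Pool.Agent.K7.H27.TH.Indep
import Pool.Agent.K7.H27.TH.Conv

/-!
# Hermitian distance matrices
-/

set_option autoImplicit false
set_option linter.style.haveILetI false

open Complex Filter Topology

namespace Pool.Agent.K7.H27.TH


/-- the partner of a vertex -/
def sg (i : Fin 8) : Fin 8 := i + 4

theorem sg_sg : ∀ i : Fin 8, sg (sg i) = i := by decide

theorem adj_sg : ∀ i j : Fin 8, adj i j = true → adj (sg i) (sg j) = true := by decide

/-- extend by conjugation -/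
noncomputable def tw (a : Fin 4 → ℂ) : Fin 8 → ℂ :=
  ![a 0, a 1, a 2, a 3, (starRingEnd ℂ) (a 0), (starRingEnd ℂ) (a 1), (starRingEnd ℂ) (a 2), (starRingEnd ℂ) (a 3)]

theorem tw_sg (a : Fin 4 → ℂ) (i : Fin 8) : tw a (sg i) = (starRingEnd ℂ) (tw a i) := by
  fin_cases i <;> simp [tw, sg]

theorem eq_tw (z : Fin 8 → ℂ) (h : ∀ i, z (sg i) = (starRingEnd ℂ) (z i)) :
    z = tw ![z 0, z 1, z 2, z 3] := by
  funext i
  fin_cases i
  · simp [tw]
  · simp [tw]
  · simp [tw]
  · simp [tw]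
  · simpa [tw, sg] using h 0
  · simpa [tw, sg] using h 1
  · simpa [tw, sg] using h 2
  · simpa [tw, sg] using h 3

/-- the antiholomorphic involution -/
noncomputable def JJ (D : Fin 8 → Fin 8 → ℂ) : Fin 8 → Fin 8 → ℂ :=
  fun i j => (starRingEnd ℂ) (D (sg i) (sg j))

theorem JJ_JJ (D : Fin 8 → Fin 8 → ℂ) : JJ (JJ D) = D := by
  funext i j
  simp [JJ, sg_sg]

theorem JJ_DD (z w : Fin 8 → ℂ) :
    JJ (DD z w) = DD (fun i => (starRingEnd ℂ) (z (sg i))) (fun i => (starRingEnd ℂ) (w (sg i))) := by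
  funext i j
  simp [JJ, DD]

theorem JJ_SS {m D : Fin 8 → Fin 8 → ℂ} (hm : JJ m = m) (hD : D ∈ SS m) : JJ D ∈ SS m := by
  obtain ⟨z, w, h1, rfl⟩ := hD
  refine ⟨_, _, fun i j hij => ?_, JJ_DD z w⟩
  have h2 := h1 (sg i) (sg j) (adj_sg i j hij)
  have h3 := congrArg (starRingEnd ℂ) h2
  have h4 : (starRingEnd ℂ) (m (sg i) (sg j)) = m i j := congrFun (congrFun hm i) j
  rw [h4] at h3
  rw [← h3]
  simp

theorem gg_JJ (D : Fin 8 → Fin 8 → ℂ) : gg (JJ D) = (starRingEnd ℂ) (gg2 D) := by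
  simp only [gg, gg2, JJ]
  have e3 : sg 3 = 7 := by decide
  have e7 : sg 7 = 3 := by decide
  have e0 : sg 0 = 4 := by decide
  rw [e3, e7, e0]
  simp only [map_sub, map_pow, map_add, map_mul, map_ofNat]

theorem gg2_JJ (D : Fin 8 → Fin 8 → ℂ) : gg2 (JJ D) = (starRingEnd ℂ) (gg D) := by
  simp only [gg, gg2, JJ]
  have e3 : sg 3 = 7 := by decide
  have e7 : sg 7 = 3 := by decide
  have e4 : sg 4 = 0 := by decide
  rw [e3, e7, e4]
  simp only [map_sub, map_pow, map_add, map_mul, map_ofNat]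

theorem JJ_ST {m D : Fin 8 → Fin 8 → ℂ} (hm : JJ m = m) (hD : D ∈ ST m) : JJ D ∈ ST m := by
  refine ⟨JJ_SS hm hD.1, ?_, ?_⟩
  · rw [gg_JJ]; exact (map_ne_zero (starRingEnd ℂ)).2 hD.2.2
  · rw [gg2_JJ]; exact (map_ne_zero (starRingEnd ℂ)).2 hD.2.1

/-- the matrix given by a normalised solution -/
noncomputable def DN (n : ℂ) (Z W : Fin 3 → ℂ) : Fin 8 → Fin 8 → ℂ :=
  DD (tw ![Z 0 - I, Z 1 - I, Z 2 - I, I])
    (tw ![W 0 + I * n / 4, W 1 + I * n / 4, W 2 + I * n / 4, -(I * n / 4)])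

theorem c4 : (starRingEnd ℂ) (4 : ℂ) = 4 := map_ofNat _ 4

theorem DN_swap {n : ℂ} (hn : (starRingEnd ℂ) n = n) (hn0 : n ≠ 0) (Z W : Fin 3 → ℂ) :
    DN n (fun i => -(4 / n) * W i) (fun i => -(n / 4) * Z i) = DN n Z W := by
  have h1 : tw ![-(4 / n) * W 0 - I, -(4 / n) * W 1 - I, -(4 / n) * W 2 - I, I] =
      fun i => -(4 / n) * tw ![W 0 + I * n / 4, W 1 + I * n / 4, W 2 + I * n / 4,
        -(I * n / 4)] i := by
    funext i
    fin_cases i <;> simp [tw, hn, c4] <;> field_simp <;> ring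
  have h2 : tw ![-(n / 4) * Z 0 + I * n / 4, -(n / 4) * Z 1 + I * n / 4,
      -(n / 4) * Z 2 + I * n / 4, -(I * n / 4)] =
      fun i => -(n / 4) * tw ![Z 0 - I, Z 1 - I, Z 2 - I, I] i := by
    funext i
    fin_cases i <;> simp [tw, hn, c4] <;> ring
  unfold DN
  rw [h1, h2]
  funext i j
  simp only [DD]
  have h3 : -(4 / n) * -(n / 4) = 1 := by field_simp
  linear_combination (tw ![W 0 + I * n / 4, W 1 + I * n / 4, W 2 + I * n / 4, -(I * n / 4)] i -
    tw ![W 0 + I * n / 4, W 1 + I * n / 4, W 2 + I * n / 4, -(I * n / 4)] j) *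
    (tw ![Z 0 - I, Z 1 - I, Z 2 - I, I] i - tw ![Z 0 - I, Z 1 - I, Z 2 - I, I] j) * h3

/-- normal form of hermitian matrices -/
theorem normal {m D : Fin 8 → Fin 8 → ℂ} (hD : D ∈ SS m) (hJ : JJ D = D)
    {r s : ℝ} (hr : m 3 7 = (r : ℂ)) (hs : m 0 4 = (s : ℂ)) (hr0 : 0 < r) (hs0 : s < 0) :
    ∃ Z W : Fin 3 → ℂ, Sol (m 3 7) ![m 0 7, m 1 7, m 2 7] ![m 0 6, m 1 6] ![m 0 4, m 1 5] Z W ∧
      D = DN (m 3 7) Z W := by
  obtain ⟨z, w, h1, rfl⟩ := hD
  have h37 : (z 3 - z 7) * (w 3 - w 7) = (r : ℂ) := by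
    rw [h1 3 7 (by decide), hr]
  have h04 : (z 0 - z 4) * (w 0 - w 4) = (s : ℂ) := by
    rw [h1 0 4 (by decide), hs]
  have hrc : (r : ℂ) ≠ 0 := by exact_mod_cast hr0.ne'
  have hprod : (z 3 - z 7) * (w 3 - w 7) ≠ 0 := by rw [h37]; exact hrc
  have hz37 : z 3 - z 7 ≠ 0 := left_ne_zero_of_mul hprod
  have hcz37 : (starRingEnd ℂ) (z 3) - (starRingEnd ℂ) (z 7) ≠ 0 := by
    rw [← map_sub]; exact (map_ne_zero (starRingEnd ℂ)).2 hz37
  rw [JJ_DD] at hJ
  have hJ' : ∀ i j, (z i - z j) * (w i - w j) =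
      ((fun i => (starRingEnd ℂ) (z (sg i))) i - (fun i => (starRingEnd ℂ) (z (sg i))) j) *
      ((fun i => (starRingEnd ℂ) (w (sg i))) i - (fun i => (starRingEnd ℂ) (w (sg i))) j) :=
    fun i j => (congrFun (congrFun hJ i) j).symm
  have e3 : sg 3 = 7 := by decide
  have e7 : sg 7 = 3 := by decide
  have e0 : sg 0 = 4 := by decide
  have e4 : sg 4 = 0 := by decide
  obtain ⟨c, hc, hh | hh⟩ := uniq (3 : Fin 8) 7 z w _ _ hJ' hprod
  · -- the good case
    have hc37 := (hh 3 7).1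
    simp only [e3, e7] at hc37
    set μ : ℂ := 2 * I / (z 3 - z 7) with hμ
    have hμ0 : μ ≠ 0 := div_ne_zero (by simp) hz37
    have hμz : μ * (z 3 - z 7) = 2 * I := by rw [hμ]; field_simp
    have hcμ : (starRingEnd ℂ) μ * c = μ := by
      have h5 : (starRingEnd ℂ) μ = -(2 * I) / ((starRingEnd ℂ) (z 3) - (starRingEnd ℂ) (z 7)) := by
        rw [hμ]
        simp only [map_div₀, map_mul, map_sub, map_ofNat, conj_I]
        ring
      have h6 : c = -((starRingEnd ℂ) (z 3) - (starRingEnd ℂ) (z 7)) / (z 3 - z 7) := by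
        rw [eq_div_iff hz37]
        linear_combination -hc37
      rw [h5, h6, hμ]
      field_simp
    have hcμ' : c⁻¹ * ((starRingEnd ℂ) μ)⁻¹ = μ⁻¹ := by
      rw [← hcμ, mul_inv, mul_comm]
      congr 1
      rw [hcμ]
    set n : ℂ := m 3 7 with hn
    have hnc : (starRingEnd ℂ) n = n := by rw [hr]; exact Complex.conj_ofReal r
    have hwμ : (w 3 - w 7) * μ⁻¹ = -(I * n / 2) := by
      have h7 : (w 3 - w 7) * μ⁻¹ = ((z 3 - z 7) * (w 3 - w 7)) * (μ * (z 3 - z 7))⁻¹ := by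
        rw [mul_inv]; field_simp
      rw [h7, h37, hμz, hr]
      field_simp
      ring_nf
      simp only [I_sq]
      ring
    let z' : Fin 8 → ℂ := fun i => μ * (z i - z 7) - I
    let w' : Fin 8 → ℂ := fun i => (w i - w 7) * μ⁻¹ + I * n / 4
    have hz'sg : ∀ i, z' (sg i) = (starRingEnd ℂ) (z' i) := by
      intro i
      have h8 := (hh (sg i) 3).1
      simp only [sg_sg, e3] at h8
      simp only [z', map_sub, map_mul, conj_I]
      have h9 : (starRingEnd ℂ) μ * ((starRingEnd ℂ) (z i) - (starRingEnd ℂ) (z 7)) = μ * (z (sg i) - z 3) := by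
        rw [h8, ← mul_assoc, hcμ]
      rw [h9]
      linear_combination hμz
    have hw'sg : ∀ i, w' (sg i) = (starRingEnd ℂ) (w' i) := by
      intro i
      have h8 := (hh (sg i) 3).2
      simp only [sg_sg, e3] at h8
      simp only [w', map_sub, map_mul, map_add, map_inv₀, map_div₀, map_ofNat, conj_I, hnc]
      have h9 : ((starRingEnd ℂ) (w i) - (starRingEnd ℂ) (w 7)) * ((starRingEnd ℂ) μ)⁻¹ = (w (sg i) - w 3) * μ⁻¹ := by
        rw [h8, ← hcμ']; ring
      rw [h9]
      linear_combination hwμ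
    have hD' : ∀ i j, (z' i - z' j) * (w' i - w' j) = (z i - z j) * (w i - w j) := by
      intro i j
      simp only [z', w']
      field_simp
      ring
    have hz'3 : z' 3 = I := by
      simp only [z']; linear_combination hμz
    have hw'3 : w' 3 = -(I * n / 4) := by
      simp only [w']; linear_combination hwμ
    have hz'7 : z' 7 = -I := by simp [z']
    have hw'7 : w' 7 = I * n / 4 := by simp [w']
    have hm : ∀ i j, adj i j = true → (z' i - z' j) * (w' i - w' j) = m i j := by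
      intro i j hij
      rw [hD', h1 i j hij]
    have hs0' : z' 4 = (starRingEnd ℂ) (z' 0) := hz'sg 0
    have hs1' : z' 5 = (starRingEnd ℂ) (z' 1) := hz'sg 1
    have hs2' : z' 6 = (starRingEnd ℂ) (z' 2) := hz'sg 2
    have ht0' : w' 4 = (starRingEnd ℂ) (w' 0) := hw'sg 0
    have ht1' : w' 5 = (starRingEnd ℂ) (w' 1) := hw'sg 1
    have ht2' : w' 6 = (starRingEnd ℂ) (w' 2) := hw'sg 2
    refine ⟨![z' 0 + I, z' 1 + I, z' 2 + I], ![w' 0 - I * n / 4, w' 1 - I * n / 4,
      w' 2 - I * n / 4], ⟨?_, ?_, ?_⟩, ?_⟩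
    · intro i
      fin_cases i
      · have := hm 0 7 (by decide)
        rw [hz'7, hw'7] at this
        simpa using this
      · have := hm 1 7 (by decide)
        rw [hz'7, hw'7] at this
        simpa using this
      · have := hm 2 7 (by decide)
        rw [hz'7, hw'7] at this
        simpa using this
    · intro i
      fin_cases i
      · have := hm 0 6 (by decide)
        rw [hs2', ht2'] at this
        simp
        rw [← this, hnc, c4]
        ring
      · have := hm 1 6 (by decide)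
        rw [hs2', ht2'] at this
        simp
        rw [← this, hnc, c4]
        ring
    · intro i
      fin_cases i
      · have := hm 0 4 (by decide)
        rw [hs0', ht0'] at this
        simp
        rw [← this, hnc, c4]
        ring
      · have := hm 1 5 (by decide)
        rw [hs1', ht1'] at this
        simp
        rw [← this, hnc, c4]
        ring
    · have h10 : DD z w = DD z' w' := by
        funext i j
        exact (hD' i j).symm
      rw [h10, eq_tw z' hz'sg, eq_tw w' hw'sg, DN]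
      simp [hz'3, hw'3, tw]
  · -- impossible signs
    exfalso
    have a1 := (hh 3 7).1
    have a2 := (hh 0 4).1
    simp only [e3, e7, e0, e4] at a1 a2
    have b1 : (w 3 - w 7) * c = -((starRingEnd ℂ) (z 3) - (starRingEnd ℂ) (z 7)) := by linear_combination -a1
    have b2 : (w 0 - w 4) * c = -((starRingEnd ℂ) (z 0) - (starRingEnd ℂ) (z 4)) := by linear_combination -a2
    have c1 : (r : ℂ) * c = -((z 3 - z 7) * (starRingEnd ℂ) (z 3 - z 7)) := by
      rw [← h37, map_sub]; linear_combination (z 3 - z 7) * b1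
    have c2 : (s : ℂ) * c = -((z 0 - z 4) * (starRingEnd ℂ) (z 0 - z 4)) := by
      rw [← h04, map_sub]; linear_combination (z 0 - z 4) * b2
    rw [Complex.mul_conj] at c1 c2
    have c3 : (s : ℂ) * (Complex.normSq (z 3 - z 7) : ℂ) =
        (r : ℂ) * (Complex.normSq (z 0 - z 4) : ℂ) := by
      linear_combination (s : ℂ) * c1 - (r : ℂ) * c2
    have c4 : s * Complex.normSq (z 3 - z 7) = r * Complex.normSq (z 0 - z 4) := by
      exact_mod_cast c3
    have c5 : 0 < Complex.normSq (z 3 - z 7) := Complex.normSq_pos.2 hz37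
    have c6 : 0 ≤ Complex.normSq (z 0 - z 4) := Complex.normSq_nonneg _
    nlinarith [mul_pos_of_neg_of_neg hs0 (neg_lt_zero.2 c5), mul_nonneg hr0.le c6]

end Pool.Agent.K7.H27.TH
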