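import Pool.Agent.K7.H27.TH.Basic

/-!
# Algebraic independence by counting
-/

set_option autoImplicit false
set_option linter.style.haveILetI false

open Cardinal

namespace Pool.Agent.K7.H27.TH

/-- exchange principle -/
theorem indep_of_card {K ι κ : Type} [Field K] [CharZero K] [Finite ι] [Finite κ]
    (hcard : #ι = #κ) (x : ι → K) (hx : AlgebraicIndependent ℚ x) (y : κ → K)
    (h : ∀ i, IsAlgebraic (Algebra.adjoin ℚ (Set.range y)) (x i)) :
    AlgebraicIndependent ℚ y := by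
  let R0 := Algebra.adjoin ℚ (Set.range y)
  let A : Subalgebra ℚ K := (Subalgebra.algebraicClosure R0 K).restrictScalars ℚ
  have hmem : ∀ a : K, a ∈ A ↔ IsAlgebraic R0 a := fun a => Iff.rfl
  let y' : κ → A := fun j => ⟨y j, (hmem _).2
    (isAlgebraic_algebraMap (⟨y j, Algebra.subset_adjoin ⟨j, rfl⟩⟩ : R0))⟩
  let x' : ι → A := fun i => ⟨x i, (hmem _).2 (h i)⟩
  have hx' : AlgebraicIndependent ℚ x' := AlgebraicIndependent.of_comp A.val hx
  have htr : #κ ≤ Algebra.trdeg ℚ A := by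
    rw [← hcard]; exact hx'.cardinalMk_le_trdeg
  have hle : ∀ a : A, a ∈ Algebra.adjoin ℚ (Set.range y') → (a : K) ∈ R0 := by
    intro a ha
    have h1 : (A.val a) ∈ (Algebra.adjoin ℚ (Set.range y')).map A.val := ⟨a, ha, rfl⟩
    rw [AlgHom.map_adjoin, ← Set.range_comp] at h1
    exact h1
  let f : Algebra.adjoin ℚ (Set.range y') →+* R0 :=
    { toFun := fun a => ⟨((a : A) : K), hle a.1 a.2⟩
      map_one' := rfl
      map_mul' := fun a b => rfl
      map_zero' := rfl
      map_add' := fun a b => rfl }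
  have hf : Function.Surjective f := by
    rintro ⟨a, ha⟩
    have h1 : a ∈ (Algebra.adjoin ℚ (Set.range y')).map A.val := by
      rw [AlgHom.map_adjoin, ← Set.range_comp]
      exact ha
    obtain ⟨b, hb, hba⟩ := h1
    exact ⟨⟨b, hb⟩, Subtype.ext hba⟩
  haveI : Algebra.IsAlgebraic (Algebra.adjoin ℚ (Set.range y')) A := by
    refine ⟨fun a => ?_⟩
    exact IsAlgebraic.of_ringHom_of_comp_eq (f := f) (g := A.val.toRingHom)
      ((hmem _).1 a.2) hf Subtype.val_injective (by ext; rfl)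
  haveI : FaithfulSMul ℚ A :=
    (faithfulSMul_iff_algebraMap_injective ℚ A).2 (algebraMap ℚ A).injective
  have h2 : IsTranscendenceBasis ℚ y' :=
    Algebra.IsAlgebraic.isTranscendenceBasis_of_le_trdeg_of_finite ℚ y' htr
  exact h2.1.map' (f := A.val) Subtype.val_injective

/-- the generic condition -/
def Gen {K : Type} [Field K] [CharZero K] (z w : Fin 8 → K) : Prop :=
  AlgebraicIndependent ℚ (Sum.elim z w)

theorem mem_adj {K κ : Type} [Field K] [CharZero K] (y : κ → K) (j : κ) :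
    IsAlgebraic (Algebra.adjoin ℚ (Set.range y)) (y j) :=
  isAlgebraic_algebraMap (⟨y j, Algebra.subset_adjoin ⟨j, rfl⟩⟩ :
    Algebra.adjoin ℚ (Set.range y))

theorem alg_of_rat {K κ : Type} [Field K] [CharZero K] (y : κ → K) {a : K} (h : IsAlgebraic ℚ a) :
    IsAlgebraic (Algebra.adjoin ℚ (Set.range y)) a :=
  h.extendScalars (algebraMap ℚ _).injective

theorem alg_I {κ : Type} (y : κ → ℂ) :
    IsAlgebraic (Algebra.adjoin ℚ (Set.range y)) Complex.I := by
  apply alg_of_rat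
  refine ⟨Polynomial.X ^ 2 + 1, ?_, ?_⟩
  · exact (Polynomial.monic_X_pow_add_C (1 : ℚ) (by norm_num)).ne_zero
  · simp

theorem card_ranges : #(Fin 8 × Fin 2) = #(Fin 8 ⊕ Fin 8) := by simp

/-- a generic real configuration has generic isotropic coordinates -/
theorem gen_real (p : Fin 8 → Fin 2 → ℝ)
    (hp : AlgebraicIndependent ℚ (fun x : Fin 8 × Fin 2 => p x.1 x.2)) :
    Gen (fun v => (p v 0 : ℂ) + Complex.I * p v 1) (fun v => (p v 0 : ℂ) - Complex.I * p v 1) := by
  have hp' : AlgebraicIndependent ℚ (fun x : Fin 8 × Fin 2 => (p x.1 x.2 : ℂ)) :=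
    hp.map' (f := (Complex.ofRealAm).restrictScalars ℚ) Complex.ofReal_injective
  refine indep_of_card card_ranges _ hp' _ ?_
  rintro ⟨v, k⟩
  set y : Fin 8 ⊕ Fin 8 → ℂ := Sum.elim (fun v => (p v 0 : ℂ) + Complex.I * p v 1)
    (fun v => (p v 0 : ℂ) - Complex.I * p v 1) with hy
  have h1 := mem_adj y (Sum.inl v)
  have h2 := mem_adj y (Sum.inr v)
  have hI := alg_I y
  have h2' : IsAlgebraic (Algebra.adjoin ℚ (Set.range y)) ((2 : ℂ)⁻¹) := by
    apply alg_of_rat
    have : ((2 : ℂ)⁻¹) = algebraMap ℚ ℂ (2⁻¹) := by simp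
    rw [this]; exact isAlgebraic_algebraMap _
  fin_cases k
  · have e : ((p v 0 : ℝ) : ℂ) = (y (Sum.inl v) + y (Sum.inr v)) * (2 : ℂ)⁻¹ := by
      simp [hy]; ring
    change IsAlgebraic _ ((p v 0 : ℝ) : ℂ)
    rw [e]
    exact (h1.add h2).mul h2'
  · have e : ((p v 1 : ℝ) : ℂ) = (y (Sum.inl v) - y (Sum.inr v)) * (2 : ℂ)⁻¹ * -Complex.I := by
      simp only [hy, Sum.elim_inl, Sum.elim_inr]
      have : Complex.I * Complex.I = -1 := Complex.I_mul_I
      linear_combination (p v 1 : ℂ) * this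
    change IsAlgebraic _ ((p v 1 : ℝ) : ℂ)
    rw [e]
    exact ((h1.sub h2).mul h2').mul hI.neg

/-- the cardinality is the same for all generic configurations -/
theorem ncard_gen {z w z' w' : Fin 8 → ℂ} (h : Gen z w) (h' : Gen z' w') :
    (ST (DD z w)).ncard = (ST (DD z' w')).ncard := by
  obtain ⟨φ, hφ⟩ := exists_iso (by rw [Cardinal.mk_complex]; exact Cardinal.aleph0_lt_continuum)
    rfl _ _ h h'
  have h1 : DD z' w' = mp (φ : ℂ →+* ℂ) (DD z w) := by
    rw [mp_DD]
    congr 1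
    · funext i; exact (hφ (Sum.inl i)).symm
    · funext i; exact (hφ (Sum.inr i)).symm
  rw [h1, ncard_ST]

end Pool.Agent.K7.H27.TH
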