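import Mathlib

/-!
# Isomorphisms of algebraically closed fields with prescribed values
-/

set_option autoImplicit false
set_option linter.style.haveILetI false

open Cardinal

namespace Pool.Agent.K7.H27.TH

/-- transcendence bases with a bijection give an isomorphism -/
theorem iso_of_tb {K L : Type} [Field K] [Field L] [IsAlgClosed K] [IsAlgClosed L] [CharZero K]
    [CharZero L] {ι κ : Type} (v : ι → K) (w : κ → L) (e : ι ≃ κ)
    (hv : IsTranscendenceBasis ℚ v) (hw : IsTranscendenceBasis ℚ w) :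
    ∃ φ : K ≃+* L, ∀ i, φ (v i) = w (e i) := by
  letI := IsAlgClosed.isAlgClosure_of_transcendence_basis v hv
  letI := IsAlgClosed.isAlgClosure_of_transcendence_basis w hw
  let e1 : Algebra.adjoin ℚ (Set.range v) ≃+* Algebra.adjoin ℚ (Set.range w) :=
    (hv.1.aevalEquiv.symm.toRingEquiv.trans
      (MvPolynomial.renameEquiv ℚ e).toRingEquiv).trans hw.1.aevalEquiv.toRingEquiv
  refine ⟨IsAlgClosure.equivOfEquiv K L e1, fun i => ?_⟩
  have h1 : (v i) = algebraMap (Algebra.adjoin ℚ (Set.range v)) K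
      (hv.1.aevalEquiv (MvPolynomial.X i)) := by
    rw [hv.1.algebraMap_aevalEquiv, MvPolynomial.aeval_X]
  rw [h1, IsAlgClosure.equivOfEquiv_algebraMap]
  have h2 : e1 (hv.1.aevalEquiv (MvPolynomial.X i)) = hw.1.aevalEquiv (MvPolynomial.X (e i)) := by
    simp [e1]
  rw [h2, hw.1.algebraMap_aevalEquiv, MvPolynomial.aeval_X]

/-- extension of a bijection between finite subsets -/
theorem exists_equiv {α β ι : Type} [Infinite α] (hαβ : #α = #β) [Finite ι] (x : ι → α)
    (y : ι → β) (hx : Function.Injective x) (hy : Function.Injective y) :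
    ∃ e : α ≃ β, ∀ i, e (x i) = y i := by
  classical
  haveI : Infinite β := by
    rw [← Cardinal.aleph0_le_mk_iff, ← hαβ]
    exact Cardinal.aleph0_le_mk α
  have h1 : #((Set.range x)ᶜ : Set α) = #α :=
    Cardinal.mk_compl_of_infinite _ (lt_of_lt_of_le
      (Cardinal.lt_aleph0_iff_set_finite.2 (Set.finite_range x)) (Cardinal.aleph0_le_mk α))
  have h2 : #((Set.range y)ᶜ : Set β) = #β :=
    Cardinal.mk_compl_of_infinite _ (lt_of_lt_of_le
      (Cardinal.lt_aleph0_iff_set_finite.2 (Set.finite_range y)) (Cardinal.aleph0_le_mk β))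
  have h3 : #((Set.range x)ᶜ : Set α) = #((Set.range y)ᶜ : Set β) := by rw [h1, h2, hαβ]
  obtain ⟨e2⟩ := Cardinal.eq.1 h3
  let e1 : Set.range x ≃ Set.range y := (Equiv.ofInjective x hx).symm.trans (Equiv.ofInjective y hy)
  refine ⟨(Equiv.Set.sumCompl (Set.range x)).symm.trans ((e1.sumCongr e2).trans
    (Equiv.Set.sumCompl (Set.range y))), fun i => ?_⟩
  have h4 : (Equiv.Set.sumCompl (Set.range x)).symm (x i) = Sum.inl ⟨x i, i, rfl⟩ :=
    Equiv.Set.sumCompl_symm_apply_of_mem (show x i ∈ Set.range x from ⟨i, rfl⟩)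
  rw [Equiv.trans_apply, h4]
  have h5 : (Equiv.ofInjective x hx).symm ⟨x i, i, rfl⟩ = i := by
    rw [Equiv.symm_apply_eq]; rfl
  simp only [Equiv.trans_apply, Equiv.sumCongr_apply, Sum.map_inl, Equiv.Set.sumCompl_apply_inl]
  simp only [e1, Equiv.trans_apply, h5]
  rfl

/-- Steinitz -/
theorem exists_iso {K L : Type} [Field K] [Field L] [IsAlgClosed K] [IsAlgClosed L] [CharZero K]
    [CharZero L] (hK : ℵ₀ < #K) (hKL : #K = #L) {ι : Type} [Finite ι] (x : ι → K) (y : ι → L)
    (hx : AlgebraicIndependent ℚ x) (hy : AlgebraicIndependent ℚ y) :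
    ∃ φ : K ≃+* L, ∀ i, φ (x i) = y i := by
  classical
  obtain ⟨s, hxs, hs⟩ := exists_isTranscendenceBasis_superset hx.to_subtype_range
  obtain ⟨t, hyt, ht⟩ := exists_isTranscendenceBasis_superset hy.to_subtype_range
  have hL : ℵ₀ < #L := by rw [← hKL]; exact hK
  have hQ : #ℚ ≤ ℵ₀ := Cardinal.mk_le_aleph0
  have hs' : #K = #s :=
    IsAlgClosed.cardinal_eq_cardinal_transcendence_basis_of_aleph0_lt' _ hs hQ hK
  have ht' : #L = #t :=
    IsAlgClosed.cardinal_eq_cardinal_transcendence_basis_of_aleph0_lt' _ ht hQ hL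
  haveI : Infinite s := by
    rw [← Cardinal.aleph0_le_mk_iff, ← hs']; exact hK.le
  obtain ⟨e, he⟩ := exists_equiv (α := s) (β := t) (by rw [← hs', ← ht', hKL])
    (fun i => ⟨x i, hxs ⟨i, rfl⟩⟩) (fun i => ⟨y i, hyt ⟨i, rfl⟩⟩)
    (fun i j h => hx.injective (congrArg Subtype.val h))
    (fun i j h => hy.injective (congrArg Subtype.val h))
  obtain ⟨φ, hφ⟩ := iso_of_tb _ _ e hs ht
  refine ⟨φ, fun i => ?_⟩
  have h1 := hφ ⟨x i, hxs ⟨i, rfl⟩⟩
  rw [he] at h1
  exact h1

/-- homomorphisms from `ℂ` with prescribed values on a transcendence basis -/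
theorem exists_hom_tb {K L : Type} [Field K] [Field L] [IsAlgClosed L] [CharZero K]
    [CharZero L] {ι : Type} (v : ι → K) (w : ι → L)
    (hv : IsTranscendenceBasis ℚ v) (hw : AlgebraicIndependent ℚ w) :
    ∃ φ : K →+* L, ∀ i, φ (v i) = w i := by
  letI : Algebra (Algebra.adjoin ℚ (Set.range v)) L :=
    ((MvPolynomial.aeval w).comp (hv.1.aevalEquiv.symm.toAlgHom)).toRingHom.toAlgebra
  haveI : Algebra.IsAlgebraic (Algebra.adjoin ℚ (Set.range v)) K := hv.isAlgebraic
  have hinj : Function.Injective (algebraMap (Algebra.adjoin ℚ (Set.range v)) L) := by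
    intro a b h
    have h1 := hw (show MvPolynomial.aeval w (hv.1.aevalEquiv.symm a) =
      MvPolynomial.aeval w (hv.1.aevalEquiv.symm b) from h)
    exact hv.1.aevalEquiv.symm.injective h1
  haveI : Module.IsTorsionFree (Algebra.adjoin ℚ (Set.range v)) L :=
    (faithfulSMul_iff_algebraMap_injective _ _).2 hinj |>.to_isTorsionFree
  refine ⟨(IsAlgClosed.lift : K →ₐ[Algebra.adjoin ℚ (Set.range v)] L).toRingHom, fun i => ?_⟩
  have h1 : (v i) = algebraMap (Algebra.adjoin ℚ (Set.range v)) K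
      (hv.1.aevalEquiv (MvPolynomial.X i)) := by
    rw [hv.1.algebraMap_aevalEquiv, MvPolynomial.aeval_X]
  rw [h1]
  change (IsAlgClosed.lift : K →ₐ[Algebra.adjoin ℚ (Set.range v)] L) (algebraMap _ K _) = _
  rw [AlgHom.commutes]
  change MvPolynomial.aeval w (hv.1.aevalEquiv.symm (hv.1.aevalEquiv (MvPolynomial.X i))) = w i
  rw [AlgEquiv.symm_apply_apply, MvPolynomial.aeval_X]

end Pool.Agent.K7.H27.TH
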