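import Pool.Agent.K7.H27.TH.Fin

/-!
# The graph is rigid
-/

set_option autoImplicit false
set_option linter.style.haveILetI false

namespace Pool.Agent.K7.H27.TH

/-- the rigidity matrix with three normalising rows -/
def Mx {R : Type} [CommRing R] (p : Fin 8 → Fin 2 → R) :
    Matrix (Fin 8 × Fin 2) (Fin 8 × Fin 2) R := fun r c =>
  if h : 2 * r.1.1 + r.2.1 < 13 then
    (if c.1 = el ⟨2 * r.1.1 + r.2.1, h⟩ then
      p (el ⟨2 * r.1.1 + r.2.1, h⟩) c.2 - p (er ⟨2 * r.1.1 + r.2.1, h⟩) c.2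
    else if c.1 = er ⟨2 * r.1.1 + r.2.1, h⟩ then
      -(p (el ⟨2 * r.1.1 + r.2.1, h⟩) c.2 - p (er ⟨2 * r.1.1 + r.2.1, h⟩) c.2)
    else 0)
  else if 2 * r.1.1 + r.2.1 = 13 then (if c = (3, 0) then 1 else 0)
  else if 2 * r.1.1 + r.2.1 = 14 then (if c = (3, 1) then 1 else 0)
  else (if c = (7, 0) then 1 else 0)

/-- a special point -/
def p0 : Fin 8 → Fin 2 → ℚ :=
  ![![0, 1], ![-1, 1], ![0, 1], ![0, 0], ![1, 0], ![0, -1], ![1, 0], ![1, -1]]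

/-- twice the entries of the inverse matrix -/
def NN : List (List ℤ) :=
  [[-4, 0, 2, 0, 0, 0, 4, 2, -4, 0, -4, 0, 4, 4, 0, -2],
   [-2, 0, 2, 0, 0, 0, 2, 1, -2, 0, -2, 0, 0, 0, 2, 0],
   [-2, 2, 0, 0, -2, 1, 2, 1, -2, 0, -2, 2, 2, 4, 0, -2],
   [-2, 2, 0, 0, -2, 2, 2, 1, -2, 0, -2, 2, 0, 2, 2, -2],
   [0, 0, 0, 0, 0, 0, 0, 2, -2, 0, -4, 0, 4, 4, 0, -2],
   [0, 0, 0, 0, 0, 0, 0, 1, 0, 0, -2, 0, 0, 0, 2, 0],
   [0, 0, 0, 0, 0, 0, 0, 0, 0, 0, 0, 0, 0, 2, 0, 0],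
   [0, 0, 0, 0, 0, 0, 0, 0, 0, 0, 0, 0, 0, 0, 2, 0],
   [0, 0, 0, 0, 0, 0, 0, 0, 0, 2, 0, 0, 0, 2, 0, 0],
   [0, 0, 0, 0, 0, 0, -2, -1, 2, 2, 2, 0, -4, -2, 2, 2],
   [2, -2, 0, 2, 2, -3, -2, -1, 2, 0, -2, -2, 2, 0, 0, 2],
   [0, 0, 0, 0, 0, 0, 0, 0, 0, 0, -2, 0, 0, 0, 2, 0],
   [0, 0, 0, 0, 0, 0, 0, 0, 0, 0, 0, 2, 0, 2, 0, 0],
   [2, -2, 0, 0, 0, 0, -2, -1, 2, 0, 2, 2, -4, -2, 2, 2],
   [0, 0, 0, 0, 0, 0, 0, 0, 0, 0, 0, 0, 0, 0, 0, 2],
   [0, 0, 0, 0, 0, 0, 0, 0, 0, 0, 0, 0, -2, -2, 2, 2]]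

/-- the inverse matrix -/
def Ninv : Matrix (Fin 8 × Fin 2) (Fin 8 × Fin 2) ℚ := fun r c =>
  (((NN.getD (2 * r.1.1 + r.2.1) []).getD (2 * c.1.1 + c.2.1) 0 : ℤ) : ℚ) / 2

theorem Ninv_mul : ∀ i j : Fin 8 × Fin 2,
    (Ninv * Mx p0) i j = if i = j then (1 : ℚ) else 0 := by
  decide +kernel

theorem det_p0 : (Mx p0).det ≠ 0 := by
  have h : Ninv * Mx p0 = 1 := by
    ext i j
    rw [Ninv_mul, Matrix.one_apply]
  exact (Matrix.isUnit_det_of_left_inverse h).ne_zero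

theorem Mx_map {R S : Type} [CommRing R] [CommRing S] (φ : R →+* S) (p : Fin 8 → Fin 2 → R) :
    (Mx p).map φ = Mx (fun v k => φ (p v k)) := by
  ext r c
  simp only [Matrix.map_apply, Mx]
  split_ifs <;> simp

theorem det_gen (p : Fin 8 → Fin 2 → ℝ)
    (hp : AlgebraicIndependent ℚ (fun x : Fin 8 × Fin 2 => p x.1 x.2)) : (Mx p).det ≠ 0 := by
  let q : Fin 8 → Fin 2 → MvPolynomial (Fin 8 × Fin 2) ℚ := fun v k => MvPolynomial.X (v, k)
  have h1 : (Mx q).det ≠ 0 := by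
    intro h
    have h2 : (MvPolynomial.eval (fun x : Fin 8 × Fin 2 => p0 x.1 x.2)) (Mx q).det = 0 := by
      rw [h, map_zero]
    rw [RingHom.map_det] at h2
    change ((Mx q).map (MvPolynomial.eval (fun x : Fin 8 × Fin 2 => p0 x.1 x.2))).det = 0 at h2
    rw [Mx_map] at h2
    simp only [q, MvPolynomial.eval_X] at h2
    exact det_p0 h2
  intro h
  apply h1
  apply hp
  rw [map_zero]
  have h3 : (MvPolynomial.aeval (fun x : Fin 8 × Fin 2 => p x.1 x.2)) (Mx q).det =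
      ((Mx q).map ((MvPolynomial.aeval (fun x : Fin 8 × Fin 2 => p x.1 x.2) :
        MvPolynomial (Fin 8 × Fin 2) ℚ →ₐ[ℚ] ℝ) : _ →+* ℝ)).det :=
    RingHom.map_det ((MvPolynomial.aeval (fun x : Fin 8 × Fin 2 => p x.1 x.2) :
        MvPolynomial (Fin 8 × Fin 2) ℚ →ₐ[ℚ] ℝ) : _ →+* ℝ) (Mx q)
  rw [h3, Mx_map]
  have h4 : (fun v k => ((MvPolynomial.aeval (fun x : Fin 8 × Fin 2 => p x.1 x.2) :
        MvPolynomial (Fin 8 × Fin 2) ℚ →ₐ[ℚ] ℝ) : _ →+* ℝ) (q v k)) = p := by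
    funext v k
    exact MvPolynomial.aeval_X _ _
  rw [h4, h]

theorem sum_row (a b : Fin 8) (hab : a ≠ b) (x : Fin 2 → ℝ) (u : Fin 8 → Fin 2 → ℝ) :
    ∑ c : Fin 8 × Fin 2, (if c.1 = a then x c.2 else if c.1 = b then -(x c.2) else 0) * u c.1 c.2 =
      ∑ k, x k * (u a k - u b k) := by
  rw [Fintype.sum_prod_type_right]
  refine Finset.sum_congr rfl fun k _ => ?_
  have h1 : ∀ v : Fin 8, (if v = a then x k else if v = b then -(x k) else 0) * u v k =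
      (if v = a then x k * u v k else 0) - (if v = b then x k * u v k else 0) := by
    intro v
    by_cases h : v = a
    · subst h
      simp [hab]
    · simp only [h, if_false]
      split_ifs <;> ring
  simp only [h1, Finset.sum_sub_distrib, Finset.sum_ite_eq', Finset.mem_univ, if_true]
  ring

theorem el_ne_er : ∀ e, el e ≠ er e := by decide

theorem ker_trivial (p : Fin 8 → Fin 2 → ℝ)
    (hp : AlgebraicIndependent ℚ (fun x : Fin 8 × Fin 2 => p x.1 x.2)) (u : Fin 8 → Fin 2 → ℝ)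
    (h : ∀ i j, adj i j = true → ∑ k, (p i k - p j k) * (u i k - u j k) = 0)
    (h30 : u 3 0 = 0) (h31 : u 3 1 = 0) (h70 : u 7 0 = 0) : ∀ v k, u v k = 0 := by
  have hdet := det_gen p hp
  have h1 : (Mx p).mulVec (fun c => u c.1 c.2) = 0 := by
    funext r
    rw [Matrix.mulVec, dotProduct, Pi.zero_apply]
    simp only [Mx]
    by_cases hr : 2 * r.1.1 + r.2.1 < 13
    · simp only [hr, dif_pos]
      rw [sum_row _ _ (el_ne_er _) (fun k => p (el ⟨2 * r.1.1 + r.2.1, hr⟩) k -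
        p (er ⟨2 * r.1.1 + r.2.1, hr⟩) k) u]
      exact h _ _ (el_er _)
    · simp only [hr, dif_neg, not_false_eq_true]
      split_ifs
      · simp [h30]
      · simp [h31]
      · simp [h70]
  have h2 : (fun c : Fin 8 × Fin 2 => u c.1 c.2) = 0 :=
    Matrix.eq_zero_of_mulVec_eq_zero hdet h1
  intro v k
  exact congrFun h2 (v, k)

/-- generic frameworks are infinitesimally rigid -/
theorem rigid (p : Fin 8 → Fin 2 → ℝ)
    (hp : AlgebraicIndependent ℚ (fun x : Fin 8 × Fin 2 => p x.1 x.2)) (u : Fin 8 → Fin 2 → ℝ)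
    (h : ∀ i j, adj i j = true → ∑ k, (p i k - p j k) * (u i k - u j k) = 0) :
    ∀ i j, ∑ k, (p i k - p j k) * (u i k - u j k) = 0 := by
  have hne : p 7 1 - p 3 1 ≠ 0 := by
    intro h0
    have h1 := hp.injective (a₁ := (7, 1)) (a₂ := (3, 1)) (sub_eq_zero.1 h0)
    exact absurd h1 (by decide)
  let θ : ℝ := -((u 7 0 - u 3 0) / (p 7 1 - p 3 1))
  let u' : Fin 8 → Fin 2 → ℝ := fun v => ![u v 0 - u 3 0 + θ * (p v 1 - p 3 1),
    u v 1 - u 3 1 - θ * (p v 0 - p 3 0)]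
  have key : ∀ i j, ∑ k, (p i k - p j k) * (u' i k - u' j k) =
      ∑ k, (p i k - p j k) * (u i k - u j k) := by
    intro i j
    simp only [Fin.sum_univ_two, u', Matrix.cons_val_zero, Matrix.cons_val_one]
    ring
  have h2 := ker_trivial p hp u' (fun i j hij => by rw [key]; exact h i j hij)
    (by simp [u']) (by simp [u']) (by
      simp only [u', Matrix.cons_val_zero, θ]
      field_simp
      ring)
  intro i j
  rw [← key]
  simp only [h2]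
  simp

end Pool.Agent.K7.H27.TH
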