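import Pool.Agent.K7.H27.TH.Sign
import Pool.Agent.K7.H27.TH.Rigid

/-!
# Not every realisation is real
-/

set_option autoImplicit false
set_option linter.style.haveILetI false

namespace Pool.Agent.K7.H27.TH

/-- the graph -/
def GG : SimpleGraph (Fin 8) where
  Adj i j := adj i j = true
  symm := ⟨fun i j h => adj_symm i j h⟩
  loopless := ⟨fun i h => adj_irrefl i h⟩

theorem main_neg (p : Fin 8 → Fin 2 → ℝ)
    (hp : AlgebraicIndependent ℚ (fun x : Fin 8 × Fin 2 => p x.1 x.2)) :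
    {D : Fin 8 → Fin 8 → ℝ | ∃ q : Fin 8 → Fin 2 → ℝ,
          (∀ i j, GG.Adj i j → ∑ k, (q i k - q j k) ^ 2 = ∑ k, (p i k - p j k) ^ 2) ∧
          D = fun i j => ∑ k, (q i k - q j k) ^ 2}.ncard ≠
      {D : Fin 8 → Fin 8 → ℂ | ∃ q : Fin 8 → Fin 2 → ℂ,
          (∀ i j, GG.Adj i j →
            ∑ k, (q i k - q j k) ^ 2 = ∑ k, ((p i k : ℂ) - (p j k : ℂ)) ^ 2) ∧
          D = fun i j => ∑ k, (q i k - q j k) ^ 2}.ncard := by
  intro heq
  set A := {D : Fin 8 → Fin 8 → ℝ | ∃ q : Fin 8 → Fin 2 → ℝ,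
          (∀ i j, GG.Adj i j → ∑ k, (q i k - q j k) ^ 2 = ∑ k, (p i k - p j k) ^ 2) ∧
          D = fun i j => ∑ k, (q i k - q j k) ^ 2} with hA
  set B := {D : Fin 8 → Fin 8 → ℂ | ∃ q : Fin 8 → Fin 2 → ℂ,
          (∀ i j, GG.Adj i j →
            ∑ k, (q i k - q j k) ^ 2 = ∑ k, ((p i k : ℂ) - (p j k : ℂ)) ^ 2) ∧
          D = fun i j => ∑ k, (q i k - q j k) ^ 2} with hB
  let z : Fin 8 → ℂ := fun v => (p v 0 : ℂ) + Complex.I * p v 1
  let w : Fin 8 → ℂ := fun v => (p v 0 : ℂ) - Complex.I * p v 1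
  have hgen : Gen z w := gen_real p hp
  have hDD : ∀ i j, DD z w i j = ∑ k, ((p i k : ℂ) - (p j k : ℂ)) ^ 2 := fun i j =>
    DD_zz (fun v k => (p v k : ℂ)) i j
  have hBS : B = SS (DD z w) := by
    ext D
    constructor
    · rintro ⟨q, h1, rfl⟩
      refine ⟨zz q, ww q, fun i j hij => ?_, ?_⟩
      · change DD (zz q) (ww q) i j = _
        rw [DD_zz, hDD]
        exact h1 i j hij
      · funext i j
        rw [DD_zz]
    · rintro ⟨z', w', h1, rfl⟩
      refine ⟨qq z' w', fun i j hij => ?_, ?_⟩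
      · rw [DD_qq, ← hDD]
        exact h1 i j hij
      · funext i j
        rw [DD_qq]
  have hBfin : B.Finite := by rw [hBS]; exact finSS hgen
  let ι : (Fin 8 → Fin 8 → ℝ) → (Fin 8 → Fin 8 → ℂ) := fun D i j => (D i j : ℂ)
  have hι : Function.Injective ι := by
    intro D D' h
    funext i j
    exact Complex.ofReal_inj.1 (congrFun (congrFun h i) j)
  have hsub : ι '' A ⊆ B := by
    rintro _ ⟨D, ⟨q, h1, rfl⟩, rfl⟩
    refine ⟨fun v k => (q v k : ℂ), fun i j hij => ?_, ?_⟩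
    · have h2 := congrArg (fun r : ℝ => (r : ℂ)) (h1 i j hij)
      push_cast at h2
      exact h2
    · funext i j
      simp only [ι]
      push_cast
      rfl
  have hAB : ι '' A = B := by
    apply Set.eq_of_subset_of_ncard_le hsub _ hBfin
    rw [← heq, Set.ncard_image_of_injective _ hι]
  -- the lengths
  let m : Fin 13 → ℝ := fun e => ∑ k, (p (el e) k - p (er e) k) ^ 2
  have hmlen : (fun e => (m e : ℂ)) = len z w := by
    funext e
    simp only [m, len]
    rw [hDD]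
    push_cast
    rfl
  have hmC : AlgebraicIndependent ℚ (fun e => (m e : ℂ)) := by
    rw [hmlen]; exact len_indep hgen
  have hm : AlgebraicIndependent ℚ m :=
    AlgebraicIndependent.of_comp ((Complex.ofRealAm).restrictScalars ℚ) hmC
  have hpos : ∀ e, 0 < m e := by
    intro e
    have h1 : 0 ≤ m e := Finset.sum_nonneg fun k _ => sq_nonneg _
    exact lt_of_le_of_ne h1 (hm.ne_zero e).symm
  have hSTeq : ST (mt (fun e => (m e : ℂ))) = ST (DD z w) := by
    rw [hmlen, ← ST_len]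
  have hSTB : ∀ D ∈ ST (mt (fun e => (m e : ℂ))), D ∈ B := by
    intro D hD
    rw [hSTeq] at hD
    rw [hBS]
    exact hD.1
  have hfin : (ST (mt (fun e => (m e : ℂ)))).Finite := hBfin.subset hSTB
  refine not_odd hm (hpos 12) (hpos 2) hfin ?_ ?_
  · intro D hD
    have h3 := hSTB D hD
    rw [← hAB] at h3
    obtain ⟨D', ⟨q, -, rfl⟩, rfl⟩ := h3
    have hne := hD.2.1
    have h4 : gg (ι fun i j => ∑ k, (q i k - q j k) ^ 2) =
        ((-4 * ((q 3 0 - q 7 0) * (q 0 1 - q 7 1) - (q 3 1 - q 7 1) * (q 0 0 - q 7 0)) ^ 2 : ℝ) :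
          ℂ) := by
      simp only [gg, ι, Fin.sum_univ_two]
      push_cast
      ring
    rw [h4] at hne ⊢
    refine ⟨Complex.ofReal_im _, ?_⟩
    rw [Complex.ofReal_re]
    have h5 := Complex.ofReal_ne_zero.1 hne
    have h6 : (q 3 0 - q 7 0) * (q 0 1 - q 7 1) - (q 3 1 - q 7 1) * (q 0 0 - q 7 0) ≠ 0 := by
      intro h7
      apply h5
      rw [h7]; ring
    have h8 := sq_pos_of_ne_zero h6
    linarith
  · rw [hSTeq]
    exact odd_gen p hp hgen

end Pool.Agent.K7.H27.TH
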