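import Pool.Agent.K7.H27.TH.Tau
import Pool.Agent.K7.H27.TH.Fin

/-!
# Monodromy and square roots
-/

set_option autoImplicit false
set_option linter.style.haveILetI false

namespace Pool.Agent.K7.H27.TH

/-- an equivariant choice of square roots -/
theorem exists_equivariant {A F : Type} [Field F] (τ : F ≃+* F) (T : Equiv.Perm A) (g : A → F)
    (s : A → F) (hs : ∀ a, s a * s a = g a) (hg : ∀ a, τ (g a) = g (T a))
    (h : ∀ a (e : ℕ), (T ^ e) a = a → (τ ^ e : F ≃+* F) (s a) = s a) :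
    ∃ δ : A → F, (∀ a, δ a * δ a = g a) ∧ ∀ a, τ (δ a) = δ (T a) := by
  classical
  have hinvT : ∀ (S : Equiv.Perm A) a, S (S⁻¹ a) = a := fun S a => S.apply_symm_apply a
  have hinvT' : ∀ (S : Equiv.Perm A) a, S⁻¹ (S a) = a := fun S a => S.symm_apply_apply a
  have hz : ∀ a (e : ℤ), (T ^ e) a = a → (τ ^ e : F ≃+* F) (s a) = s a := by
    intro a e he
    rcases Int.eq_nat_or_neg e with ⟨n, rfl | rfl⟩
    · rw [zpow_natCast] at he ⊢
      exact h a n he
    · rw [zpow_neg, zpow_natCast] at he ⊢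
      have h1 : (T ^ n) a = a := by
        conv_lhs => rw [← he]
        exact hinvT _ _
      have h2 := h a n h1
      conv_lhs => rw [← h2]
      exact RingEquiv.symm_apply_apply _ _
  have hgz : ∀ (e : ℤ) a, (τ ^ e : F ≃+* F) (g a) = g ((T ^ e) a) := by
    have hinv : ∀ a, (τ⁻¹ : F ≃+* F) (g a) = g ((T⁻¹) a) := by
      intro a
      have h1 := hg ((T⁻¹) a)
      rw [hinvT] at h1
      rw [← h1]
      exact RingEquiv.symm_apply_apply _ _
    intro e
    induction e using Int.induction_on with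
    | zero => intro a; simp
    | succ n ih =>
      intro a
      rw [zpow_add_one, zpow_add_one, RingAut.mul_apply, hg, ih]
      rfl
    | pred n ih =>
      intro a
      rw [zpow_sub_one, zpow_sub_one, RingAut.mul_apply, hinv, ih]
      rfl
  let r : A → A := fun a => (Quotient.mk (Equiv.Perm.SameCycle.setoid T) a).out
  have hr : ∀ a, T.SameCycle (r a) a := fun a =>
    Quotient.mk_out (s := Equiv.Perm.SameCycle.setoid T) a
  have hrT : ∀ a, r (T a) = r a := by
    intro a
    have h1 : Quotient.mk (Equiv.Perm.SameCycle.setoid T) (T a) =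
        Quotient.mk (Equiv.Perm.SameCycle.setoid T) a := by
      apply Quotient.sound
      change T.SameCycle (T a) a
      exact Equiv.Perm.sameCycle_apply_left.2 (Equiv.Perm.SameCycle.refl _ _)
    simp only [r, h1]
  choose e he using hr
  refine ⟨fun a => (τ ^ e a : F ≃+* F) (s (r a)), fun a => ?_, fun a => ?_⟩
  · change (τ ^ e a : F ≃+* F) (s (r a)) * (τ ^ e a : F ≃+* F) (s (r a)) = _
    rw [← map_mul, hs, hgz, he]
  · change τ ((τ ^ e a : F ≃+* F) (s (r a))) = (τ ^ e (T a) : F ≃+* F) (s (r (T a)))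
    have h1 : (T ^ (-(e a) + -1 + e (T a))) (r a) = r a := by
      rw [zpow_add, zpow_add, Equiv.Perm.mul_apply, Equiv.Perm.mul_apply]
      have h2 := he (T a)
      rw [hrT] at h2
      rw [h2, zpow_neg_one, hinvT', zpow_neg]
      have h7 := hinvT' (T ^ e a) (r a)
      rwa [he a] at h7
    have h3 := hz _ _ h1
    have h4 : (τ ^ (e a + 1) : F ≃+* F) ((τ ^ (-(e a) + -1 + e (T a)) : F ≃+* F) (s (r a))) =
        (τ ^ (e a + 1) : F ≃+* F) (s (r a)) := by rw [h3]
    rw [← RingAut.mul_apply, ← zpow_add] at h4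
    have h5 : e a + 1 + (-(e a) + -1 + e (T a)) = e (T a) := by ring
    rw [h5] at h4
    rw [hrT, h4, add_comm, zpow_add, zpow_one, RingAut.mul_apply]

/-- the monodromy acting on realisations -/
noncomputable def TT {m : Fin 8 → Fin 8 → PP} (hm : mp (tau : PP →+* PP) m = m) :
    Equiv.Perm (ST m) where
  toFun D := ⟨mp (tau : PP →+* PP) D.1, by
    have := mp_memT (tau : PP →+* PP) D.2
    rwa [hm] at this⟩
  invFun D := ⟨mp (tau.symm : PP →+* PP) D.1, by
    have h1 := mp_memT (tau.symm : PP →+* PP) D.2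
    have h2 : mp (tau.symm : PP →+* PP) m = m := by
      conv_lhs => rw [← hm]
      funext i j
      exact tau.symm_apply_apply _
    rwa [h2] at h1⟩
  left_inv D := Subtype.ext (by
    funext i j
    exact tau.symm_apply_apply _)
  right_inv D := Subtype.ext (by
    funext i j
    exact tau.apply_symm_apply _)

theorem TT_pow {m : Fin 8 → Fin 8 → PP} (hm : mp (tau : PP →+* PP) m = m) (e : ℕ) (D : ST m)
    (i j : Fin 8) : ((TT hm ^ e) D).1 i j = (tau ^ e : PP ≃+* PP) (D.1 i j) := by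
  induction e generalizing D with
  | zero => simp
  | succ e ih =>
    rw [pow_succ, pow_succ, RingAut.mul_apply, Equiv.Perm.mul_apply, ih]
    rfl

theorem gg_DD {Ω : Type} [Field Ω] (z w : Fin 8 → Ω) : gg (DD z w) =
    ((z 0 - z 7) * (w 3 - w 7) - (z 3 - z 7) * (w 0 - w 7)) *
    ((z 0 - z 7) * (w 3 - w 7) - (z 3 - z 7) * (w 0 - w 7)) := by
  unfold gg DD; ring

/-- the quadrilateral -/
theorem quad_rel {K : Type} [Field K] {a b c d x y t : K} (ha : a ≠ 0) (hx : x * x = b / a)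
    (hy : y * y = c / a) (ht : t * t = d / a) (h : x + y + t = 1) :
    ((a + b - c - d) ^ 2 - 4 * a * b - 4 * c * d) ^ 2 - 64 * a * b * c * d = 0 := by
  have hb : b = a * (x * x) := by rw [hx]; field_simp
  have hc : c = a * (y * y) := by rw [hy]; field_simp
  have hd : d = a * (t * t) := by rw [ht]; field_simp
  have ht' : t = 1 - x - y := by linear_combination h
  rw [hb, hc, hd, ht']
  ring

/-- the quadrilateral relation as a polynomial -/
theorem quad_indep {K : Type} [Field K] [CharZero K] (m : Fin 13 → K)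
    (hm : AlgebraicIndependent ℚ m) :
    ((m 12 + m 5 - m 3 - m 10) ^ 2 - 4 * m 12 * m 5 - 4 * m 3 * m 10) ^ 2
      - 64 * m 12 * m 5 * m 3 * m 10 ≠ 0 := by
  intro h
  let X : Fin 13 → MvPolynomial (Fin 13) ℚ := MvPolynomial.X
  let P : MvPolynomial (Fin 13) ℚ := ((X 12 + X 5 - X 3 - X 10) ^ 2 - 4 * X 12 * X 5
    - 4 * X 3 * X 10) ^ 2 - 64 * X 12 * X 5 * X 3 * X 10
  have h1 : MvPolynomial.aeval m P = 0 := by
    simp only [P, X, map_sub, map_mul, map_pow, map_add, MvPolynomial.aeval_X, map_ofNat]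
    exact h
  have h2 : P = 0 := hm (h1.trans (map_zero _).symm)
  have h3 := congrArg (MvPolynomial.eval (fun i : Fin 13 => if i = 12 then (1 : ℚ) else 0)) h2
  simp [P, X] at h3

theorem mt_el {Ω : Type} [Field Ω] (ℓ : Fin 13 → Ω) (e : Fin 13) : mt ℓ (el e) (er e) = ℓ e := by
  fin_cases e <;> rfl

theorem swap_false {ℓ : Fin 13 → PP} (m : Fin 13 → ℂ) (hm : AlgebraicIndependent ℚ m)
    (h : ∀ e, e ≠ 2 → ℓ e = cst (m e)) {D : Fin 8 → Fin 8 → PP} (hD : D ∈ ST (mt ℓ)) (e : ℕ)
    (hDe : ∀ i j, (tau ^ e : PP ≃+* PP) (D i j) = D i j) {s : PP} (hs : s * s = gg D) :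
    (tau ^ e : PP ≃+* PP) s = s := by
  obtain ⟨⟨z, w, h1, rfl⟩, hgg, -⟩ := hD
  set σ : PP ≃+* PP := tau ^ e with hσ
  rw [gg_DD] at hs hgg
  have hP := left_ne_zero_of_mul hgg
  set P : PP := (z 0 - z 7) * (w 3 - w 7) - (z 3 - z 7) * (w 0 - w 7) with hPdef
  have hsP : s = P ∨ s = -P := mul_self_eq_mul_self_iff.1 hs
  have hne : ∀ e, m e ≠ 0 := fun e => hm.ne_zero e
  have hl : ∀ e, (z (el e) - z (er e)) * (w (el e) - w (er e)) = ℓ e := by
    intro e
    rw [h1 _ _ (el_er e), mt_el]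
  have h37 : (z 3 - z 7) * (w 3 - w 7) = cst (m 12) := (hl 12).trans (h 12 (by decide))
  have h37' : (z 3 - z 7) * (w 3 - w 7) ≠ 0 := by
    rw [h37]; exact (map_ne_zero cst).2 (hne 12)
  have hD' : ∀ i j, (z i - z j) * (w i - w j) =
      ((fun i => σ (z i)) i - (fun i => σ (z i)) j) *
      ((fun i => σ (w i)) i - (fun i => σ (w i)) j) := by
    intro i j
    have h2 := hDe i j
    change σ ((z i - z j) * (w i - w j)) = (z i - z j) * (w i - w j) at h2
    rw [← h2, map_mul, map_sub, map_sub]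
  obtain ⟨c, hc, h2 | h2⟩ := uniq 3 7 z w _ _ hD' h37'
  · -- straight type
    have h3 : σ P = P := by
      have e1 := (h2 0 7).1
      have e2 := (h2 3 7).2
      have e3 := (h2 3 7).1
      have e4 := (h2 0 7).2
      simp only [← map_sub] at e1 e2 e3 e4
      rw [hPdef, map_sub, map_mul, map_mul, e1, e2, e3, e4]
      field_simp
    rcases hsP with rfl | rfl
    · exact h3
    · rw [map_neg, h3]
  · -- swapped type
    exfalso
    have ha := left_ne_zero_of_mul h37'
    have hb := right_ne_zero_of_mul h37'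
    have key : ∀ i j : Fin 8, ∀ k : Fin 13, (z i - z j) * (w i - w j) = cst (m k) →
        cf ((z i - z j) / (z 3 - z 7)) 0 * cf ((z i - z j) / (z 3 - z 7)) 0 = m k / m 12 := by
      intro i j k hk
      apply norm_cst e (div_ne_zero (hne _) (hne _))
      rw [map_div₀ cst, ← h37, ← hk]
      rw [← hσ, map_div₀ σ]
      have e1 := (h2 i j).1
      have e2 := (h2 3 7).1
      simp only [← map_sub] at e1 e2
      rw [e1, e2]
      field_simp
    have k1 := key 1 7 5 ((hl 5).trans (h 5 (by decide)))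
    have k2 := key 5 1 3 (by
      have h4 : (z 1 - z 5) * (w 1 - w 5) = cst (m 3) := (hl 3).trans (h 3 (by decide))
      rw [← h4]; ring)
    have k3 := key 3 5 10 ((hl 10).trans (h 10 (by decide)))
    have hsum : cf ((z 1 - z 7) / (z 3 - z 7)) 0 + cf ((z 5 - z 1) / (z 3 - z 7)) 0 +
        cf ((z 3 - z 5) / (z 3 - z 7)) 0 = 1 := by
      rw [← cf_add, ← cf_add]
      have h5 : (z 1 - z 7) / (z 3 - z 7) + (z 5 - z 1) / (z 3 - z 7) +
          (z 3 - z 5) / (z 3 - z 7) = cst 1 := by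
        rw [map_one]
        field_simp
        ring
      rw [h5, cf_cst, if_pos rfl]
    exact quad_indep m hm (quad_rel (hne 12) k1 k2 k3 hsum)

/-- the product cannot have odd order -/
theorem prod_ne {ℓ : Fin 13 → PP} (hℓ : ∀ e, tau (ℓ e) = ℓ e) (m : Fin 13 → ℂ)
    (hm : AlgebraicIndependent ℚ m) (h : ∀ e, e ≠ 2 → ℓ e = cst (m e))
    (hfin : (ST (mt ℓ)).Finite) {k : ℤ} (hk : Odd k) {G : PP} (hG : U0 G) (htG : tau G = G) :
    ∏ D ∈ hfin.toFinset, gg D ≠ uu ^ k * G := by
  classical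
  intro hprod
  haveI : Fintype (ST (mt ℓ)) := hfin.fintype
  have hmt : mp (tau : PP →+* PP) (mt ℓ) = mt ℓ := by
    rw [mp_mt]
    congr 1
    funext e
    exact hℓ e
  have hsq : ∀ D : ST (mt ℓ), ∃ s : PP, s * s = gg D.1 := by
    intro D
    obtain ⟨s, hs⟩ := IsAlgClosed.exists_eq_mul_self (gg D.1)
    exact ⟨s, hs.symm⟩
  choose s hs using hsq
  obtain ⟨δ, hδ1, hδ2⟩ := exists_equivariant tau (TT hmt) (fun D => gg D.1) s hs
    (fun D => (gg_mp (tau : PP →+* PP) D.1).symm) (fun D e he => by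
      refine swap_false m hm h D.2 e (fun i j => ?_) (hs D)
      rw [← TT_pow hmt, he])
  set P : PP := ∏ D : ST (mt ℓ), δ D with hP
  have h1 : P * P = ∏ D ∈ hfin.toFinset, gg D := by
    rw [hP, ← Finset.prod_mul_distrib]
    rw [Finset.prod_congr rfl (fun D _ => hδ1 D)]
    rw [← Finset.prod_coe_sort hfin.toFinset]
    refine Fintype.prod_equiv (Equiv.subtypeEquivRight fun D => ?_) _ _ fun D => rfl
    rw [Set.Finite.mem_toFinset]
  have h2 : tau P = P := by
    rw [hP, map_prod]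
    rw [Finset.prod_congr rfl (fun D _ => hδ2 D)]
    exact Equiv.prod_comp (TT hmt) δ
  have h3 := tau_sqrt hk hG htG (h1.trans hprod)
  rw [h2] at h3
  have h4 : P = 0 := self_eq_neg.1 h3
  have h5 : uu ^ k * G ≠ 0 := mul_ne_zero (zpow_ne_zero _ uu_ne) hG.1
  apply h5
  rw [← hprod, ← h1, h4, mul_zero]

end Pool.Agent.K7.H27.TH
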