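import Pool.Agent.K7.H27.TH.Frac

/-!
# The sign argument
-/

set_option autoImplicit false
set_option linter.style.haveILetI false

open Polynomial

namespace Pool.Agent.K7.H27.TH

theorem exists_odd_root (n : ℕ) : ∀ (R : ℝ[X]), R.natDegree ≤ n → ∀ a b : ℝ, a < b →
    R.eval a * R.eval b < 0 → ∃ t, Odd (R.rootMultiplicity t) := by
  induction n with
  | zero =>
    intro R hR a b hab h
    exfalso
    rw [Polynomial.eq_C_of_natDegree_le_zero hR, eval_C, eval_C] at h
    nlinarith [mul_self_nonneg (R.coeff 0)]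
  | succ n ih =>
    intro R hR a b hab h
    have hR0 : R ≠ 0 := by
      rintro rfl
      simp at h
    obtain ⟨t, ht⟩ : ∃ t, R.eval t = 0 := by
      have hc : ContinuousOn (fun x => R.eval x) (Set.Icc a b) := R.continuous.continuousOn
      rcases mul_neg_iff.1 h with ⟨h1, h2⟩ | ⟨h1, h2⟩
      · obtain ⟨t, -, ht⟩ := intermediate_value_Icc' hab.le hc ⟨h2.le, h1.le⟩
        exact ⟨t, ht⟩
      · obtain ⟨t, -, ht⟩ := intermediate_value_Icc hab.le hc ⟨h1.le, h2.le⟩
        exact ⟨t, ht⟩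
    by_cases hodd : Odd (R.rootMultiplicity t)
    · exact ⟨t, hodd⟩
    rw [Nat.not_odd_iff_even] at hodd
    obtain ⟨g, hg1, hg2⟩ := Polynomial.exists_eq_pow_rootMultiplicity_mul_and_not_dvd R hR0 t
    set k := R.rootMultiplicity t with hk
    have hk0 : 0 < k := (Polynomial.rootMultiplicity_pos hR0).2 ht
    have hg0 : g ≠ 0 := by
      rintro rfl
      exact hg2 (dvd_zero _)
    have hgt : g.eval t ≠ 0 := fun h' => hg2 (Polynomial.dvd_iff_isRoot.2 h')
    have hdeg : g.natDegree ≤ n := by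
      have h3 : R.natDegree = k + g.natDegree := by
        conv_lhs => rw [hg1]
        rw [Polynomial.natDegree_mul (pow_ne_zero _ (X_sub_C_ne_zero t)) hg0,
          Polynomial.natDegree_pow, natDegree_X_sub_C, mul_one]
      omega
    have hgab : g.eval a * g.eval b < 0 := by
      have h4 : R.eval a * R.eval b = ((a - t) * (b - t)) ^ k * (g.eval a * g.eval b) := by
        conv_lhs => rw [hg1]
        simp only [eval_mul, eval_pow, eval_sub, eval_X, eval_C, mul_pow]
        ring
      rw [h4] at h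
      have h5 : 0 ≤ ((a - t) * (b - t)) ^ k := hodd.pow_nonneg _
      by_contra h6
      exact absurd h (not_lt.2 (mul_nonneg h5 (not_lt.1 h6)))
    obtain ⟨t', ht'⟩ := ih g hdeg a b hab hgab
    refine ⟨t', ?_⟩
    have hne : t' ≠ t := by
      rintro rfl
      have h7 : g.rootMultiplicity t' = 0 := Polynomial.rootMultiplicity_eq_zero hgt
      rw [h7] at ht'
      exact absurd ht' (by decide)
    have h8 : R.rootMultiplicity t' = g.rootMultiplicity t' := by
      conv_lhs => rw [hg1]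
      rw [Polynomial.rootMultiplicity_mul (by rw [← hg1]; exact hR0),
        Polynomial.rootMultiplicity_eq_zero, zero_add]
      rw [IsRoot.def, eval_pow, eval_sub, eval_X, eval_C]
      exact pow_ne_zero _ (sub_ne_zero.2 hne)
    rw [h8]
    exact ht'

theorem sign_lt {m : Fin 13 → ℝ} (hfin : (ST (mt (fun e => (m e : ℂ)))).Finite)
    (hneg : ∀ D ∈ ST (mt (fun e => (m e : ℂ))), (gg D).im = 0 ∧ (gg D).re < 0)
    (hodd : Odd (ST (mt (fun e => (m e : ℂ)))).ncard) :
    ∃ r : ℝ, r < 0 ∧ ∏ D ∈ hfin.toFinset, gg D = (r : ℂ) := by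
  refine ⟨∏ D ∈ hfin.toFinset, (gg D).re, ?_, ?_⟩
  · have h1 : ∏ D ∈ hfin.toFinset, (gg D).re = (-1) ^ hfin.toFinset.card *
        ∏ D ∈ hfin.toFinset, (-(gg D).re) := by
      rw [← Finset.prod_neg]
      simp
    rw [Set.ncard_eq_toFinset_card _ hfin] at hodd
    rw [h1, hodd.neg_one_pow]
    have h2 : 0 < ∏ D ∈ hfin.toFinset, (-(gg D).re) := by
      apply Finset.prod_pos
      intro D hD
      have := (hneg D ((Set.Finite.mem_toFinset _).1 hD)).2
      linarith
    linarith
  · rw [Complex.ofReal_prod]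
    refine Finset.prod_congr rfl fun D hD => ?_
    have := (hneg D ((Set.Finite.mem_toFinset _).1 hD)).1
    apply Complex.ext
    · simp
    · simp [this]

theorem sign_gt {l : Fin 13 → ℝ} (h12 : 0 < l 12) (h2 : l 2 < 0)
    (hfin : (ST (mt (fun e => (l e : ℂ)))).Finite) :
    ∃ r : ℝ, 0 < r ∧ ∏ D ∈ hfin.toFinset, gg D = (r : ℂ) := by
  classical
  refine ⟨∏ D ∈ hfin.toFinset, ‖gg D‖, ?_, ?_⟩
  · apply Finset.prod_pos
    intro D hD
    exact norm_pos_iff.2 ((Set.Finite.mem_toFinset _).1 hD).2.1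
  · have hconj : ∀ D ∈ ST (mt (fun e => (l e : ℂ))),
        mp (starRingEnd ℂ) D ∈ ST (mt (fun e => (l e : ℂ))) := by
      intro D hD
      have h3 := mp_memT (starRingEnd ℂ) hD
      have h4 : mp (starRingEnd ℂ) (mt (fun e => (l e : ℂ))) = mt (fun e => (l e : ℂ)) := by
        rw [mp_mt]
        congr 1
        funext e
        exact Complex.conj_ofReal _
      rwa [h4] at h3
    have hreal : ∀ D ∈ ST (mt (fun e => (l e : ℂ))), mp (starRingEnd ℂ) D = D →
        gg D = (‖gg D‖ : ℂ) := by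
      intro D hD hDD
      have hD1 := hD.1
      obtain ⟨z, w, h5, h6⟩ := hD1
      have h37 : D 3 7 = (l 12 : ℂ) := by
        rw [h6]
        exact (h5 3 7 (by decide)).trans (mt_el (fun e => (l e : ℂ)) 12)
      have h07 : D 0 7 = (l 2 : ℂ) := by
        rw [h6]
        exact (h5 0 7 (by decide)).trans (mt_el (fun e => (l e : ℂ)) 2)
      have h03 : D 0 3 = ((D 0 3).re : ℂ) := by
        have h7 : (starRingEnd ℂ) (D 0 3) = D 0 3 := congrFun (congrFun hDD 0) 3
        exact (Complex.conj_eq_iff_re.1 h7).symm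
      have h8 : gg D = (((l 12 + l 2 - (D 0 3).re) ^ 2 - 4 * l 12 * l 2 : ℝ) : ℂ) := by
        unfold gg
        rw [h37, h07]
        conv_lhs => rw [h03]
        push_cast
        ring
      have h9 : 0 ≤ (l 12 + l 2 - (D 0 3).re) ^ 2 - 4 * l 12 * l 2 := by
        nlinarith [sq_nonneg (l 12 + l 2 - (D 0 3).re), mul_pos h12 (neg_pos.2 h2)]
      rw [h8, Complex.norm_real, Real.norm_of_nonneg h9]
    have key : ∏ D ∈ hfin.toFinset, (gg D / (‖gg D‖ : ℂ)) = 1 := by
      refine Finset.prod_involution (fun D _ => mp (starRingEnd ℂ) D) ?_ ?_ ?_ ?_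
      · intro D hD
        have hD' := (Set.Finite.mem_toFinset _).1 hD
        have h10 : (‖gg D‖ : ℂ) ≠ 0 := by
          rw [Ne, Complex.ofReal_eq_zero, norm_eq_zero]
          exact hD'.2.1
        rw [gg_mp, Complex.norm_conj, div_mul_div_comm, Complex.mul_conj]
        rw [div_eq_one_iff_eq (mul_ne_zero h10 h10), Complex.normSq_eq_norm_sq]
        push_cast
        ring
      · intro D hD hne heq
        have hD' := (Set.Finite.mem_toFinset _).1 hD
        apply hne
        have h10 : (‖gg D‖ : ℂ) ≠ 0 := by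
          rw [Ne, Complex.ofReal_eq_zero, norm_eq_zero]
          exact hD'.2.1
        rw [div_eq_one_iff_eq h10]
        exact hreal D hD' heq
      · intro D hD
        exact (Set.Finite.mem_toFinset _).2 (hconj D ((Set.Finite.mem_toFinset _).1 hD))
      · intro D hD
        funext i j
        simp [mp]
    have h11 : ∏ D ∈ hfin.toFinset, gg D = (∏ D ∈ hfin.toFinset, (gg D / (‖gg D‖ : ℂ))) *
        ∏ D ∈ hfin.toFinset, (‖gg D‖ : ℂ) := by
      rw [← Finset.prod_mul_distrib]
      refine Finset.prod_congr rfl fun D hD => ?_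
      have h10 : (‖gg D‖ : ℂ) ≠ 0 := by
        rw [Ne, Complex.ofReal_eq_zero, norm_eq_zero]
        exact ((Set.Finite.mem_toFinset _).1 hD).2.1
      field_simp
    rw [h11, key, one_mul, Complex.ofReal_prod]

/-- if all realisations of a generic framework are real, then their number is even -/
theorem not_odd {m : Fin 13 → ℝ} (hm : AlgebraicIndependent ℚ m) (h12 : 0 < m 12) (h2 : 0 < m 2)
    (hfin : (ST (mt (fun e => (m e : ℂ)))).Finite)
    (hneg : ∀ D ∈ ST (mt (fun e => (m e : ℂ))), (gg D).im = 0 ∧ (gg D).re < 0)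
    (hodd : Odd (ST (mt (fun e => (m e : ℂ)))).ncard) : False := by
  classical
  obtain ⟨R, S, h3, h4, h5, h6⟩ := exists_frac hm hfin
  -- the value at `m 2`
  have e1 : (fun e => if e = 2 then ((m 2 : ℝ) : ℂ) else (m e : ℂ)) = fun e => (m e : ℂ) := by
    funext e
    split_ifs with h
    · rw [h]
    · rfl
  have e2 : (fun e => if e = 2 then ((-m 2 : ℝ) : ℂ) else (m e : ℂ)) =
      fun e => (((fun e => if e = 2 then -m 2 else m e) e : ℝ) : ℂ) := by
    funext e
    split_ifs with h
    · simp [h]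
    · simp [h]
  have v1 : R.eval (m 2) / S.eval (m 2) < 0 := by
    obtain ⟨r, hr, hr'⟩ := sign_lt hfin hneg hodd
    have h7 := h3 (m 2) (Or.inl rfl) (h4 (m 2) (Or.inl rfl))
    simp only [e1] at h7
    have h8 := hr'.symm.trans h7
    rw [← Complex.ofReal_inj.1 h8]
    exact hr
  have v2 : 0 < R.eval (-m 2) / S.eval (-m 2) := by
    have hf2 := h4 (-m 2) (Or.inr rfl)
    have h7 := h3 (-m 2) (Or.inr rfl) hf2
    simp only [e2] at h7 hf2
    obtain ⟨r, hr, hr'⟩ := sign_gt (l := fun e => if e = 2 then -m 2 else m e)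
      (by simpa using h12) (by simpa using h2) hf2
    have h8 := hr'.symm.trans h7
    rw [← Complex.ofReal_inj.1 h8]
    exact hr
  have hprod : (R * S).eval (-m 2) * (R * S).eval (m 2) < 0 := by
    rw [eval_mul, eval_mul]
    have h9 : R.eval (m 2) * S.eval (m 2) < 0 := by
      rcases div_neg_iff.1 v1 with h | h
      · exact mul_neg_of_pos_of_neg h.1 h.2
      · exact mul_neg_of_neg_of_pos h.1 h.2
    have h10 : 0 < R.eval (-m 2) * S.eval (-m 2) := by
      rcases div_pos_iff.1 v2 with h | h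
      · exact mul_pos h.1 h.2
      · exact mul_pos_of_neg_of_neg h.1 h.2
    exact mul_neg_of_pos_of_neg h10 h9
  obtain ⟨t, ht⟩ := exists_odd_root _ (R * S) le_rfl (-m 2) (m 2) (by linarith) hprod
  have hRS : R * S ≠ 0 := by
    intro h
    rw [h] at hprod
    simp at hprod
  have hR : R ≠ 0 := left_ne_zero_of_mul hRS
  have hS : S ≠ 0 := right_ne_zero_of_mul hRS
  rw [Polynomial.rootMultiplicity_mul hRS] at ht
  have hmap : ∀ f : ℝ[X], (f.map (algebraMap ℝ ℂ)).rootMultiplicity (t : ℂ) =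
      f.rootMultiplicity t := fun f =>
    (Polynomial.eq_rootMultiplicity_map (algebraMap ℝ ℂ).injective t).symm
  obtain ⟨G1, hG1, hG1', hG1''⟩ := ev_fac (t : ℂ) (R.map (algebraMap ℝ ℂ))
    ((Polynomial.map_ne_zero_iff (algebraMap ℝ ℂ).injective).2 hR)
  obtain ⟨G2, hG2, hG2', hG2''⟩ := ev_fac (t : ℂ) (S.map (algebraMap ℝ ℂ))
    ((Polynomial.map_ne_zero_iff (algebraMap ℝ ℂ).injective).2 hS)
  rw [hmap] at hG1'' hG2''
  have h12 := h6 t (h5 t)
  refine prod_ne (ℓ := fun e => if e = 2 then cst (t : ℂ) + uu else cst (m e : ℂ)) ?_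
    (fun e => (m e : ℂ)) ?_ ?_ (h5 t)
    (k := (R.rootMultiplicity t : ℤ) - (S.rootMultiplicity t : ℤ)) ?_
    (hG1.mul hG2.inv) ?_ ?_
  · intro e
    split_ifs with h
    · rw [map_add, tau_cst, tau_uu]
    · rw [tau_cst]
  · exact hm.map' (f := (Complex.ofRealAm).restrictScalars ℚ) Complex.ofReal_injective
  · intro e he
    simp [he]
  · rw [Int.odd_sub, Int.odd_coe_nat, Int.even_coe_nat]
    rw [Nat.odd_add] at ht
    exact ht
  · rw [map_mul, map_inv₀, hG1', hG2']
  · rw [h12, hG1'', hG2'', zpow_sub₀ uu_ne, zpow_natCast, zpow_natCast]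
    field_simp

end Pool.Agent.K7.H27.TH
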