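import Pool.Agent.Helper165.P1.Fields

/-!
# The monodromy automorphism of the field of Puiseux series
-/

set_option autoImplicit false
set_option linter.style.haveILetI false

namespace Pool.Agent.K7.H27.TH

open Pool.Agent.Helper165.P1

/-- the field of Puiseux series -/
abbrev PP : Type := Pui ℂ

/-- coefficients -/
noncomputable def cf (x : PP) (q : ℚ) : ℂ := (x : HQ ℂ).coeff q

/-- the exponential character -/
noncomputable def ch : AddChar ℚ ℂ where
  toFun q := Complex.exp (2 * Real.pi * Complex.I * q)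
  map_zero_eq_one' := by simp
  map_add_eq_mul' a b := by
    rw [← Complex.exp_add]
    congr 1
    push_cast
    ring

theorem ch_one : ch 1 = 1 := by
  change Complex.exp (2 * Real.pi * Complex.I * ((1 : ℚ) : ℂ)) = 1
  rw [Rat.cast_one, mul_one]
  exact Complex.exp_two_pi_mul_I

theorem ch_half : ch (1 / 2) = -1 := by
  change Complex.exp (2 * Real.pi * Complex.I * ((1 / 2 : ℚ) : ℂ)) = -1
  have : (2 * Real.pi * Complex.I * ((1 / 2 : ℚ) : ℂ)) = Real.pi * Complex.I := by
    push_cast; ring
  rw [this]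
  exact Complex.exp_pi_mul_I

/-- the monodromy -/
noncomputable def tau : PP ≃+* PP := twP (RingEquiv.refl ℂ) ch

theorem cf_tau (x : PP) (q : ℚ) : cf (tau x) q = ch q * cf x q := rfl

theorem ext_cf {x y : PP} (h : ∀ q, cf x q = cf y q) : x = y := by
  apply Subtype.ext
  ext q
  exact h q

theorem eHom_single' (m : ℕ) (hm : 0 < m) (n : ℤ) (c : ℂ) :
    eHom m hm (HahnSeries.single n c) = HahnSeries.single ((n : ℚ) / m) c := by
  unfold eHom
  rw [HahnSeries.embDomainRingHom_apply]
  exact HahnSeries.embDomain_single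

/-- Constants as Puiseux series. -/
noncomputable def cst : ℂ →+* PP :=
  (HahnSeries.C : ℂ →+* HQ ℂ).codRestrict (Pui ℂ) (fun e => ⟨1, one_pos, HahnSeries.C e, by
    change eHom 1 one_pos (HahnSeries.single 0 e) = HahnSeries.single 0 e
    rw [eHom_single']
    simp⟩)

theorem cf_cst (e : ℂ) (q : ℚ) : cf (cst e) q = if q = 0 then e else 0 := by
  change (HahnSeries.single (0 : ℚ) e).coeff q = _
  split_ifs with h
  · rw [h, HahnSeries.coeff_single_same]
  · rw [HahnSeries.coeff_single_of_ne h]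

/-- the variable -/
noncomputable def uu : PP := ⟨HahnSeries.single 1 1, 1, one_pos, HahnSeries.single 1 1, by
  rw [eHom_single']; simp⟩

/-- the square root of the variable -/
noncomputable def su : PP := ⟨HahnSeries.single (1 / 2) 1, 2, two_pos, HahnSeries.single 1 1, by
  rw [eHom_single']; simp⟩

theorem su_sq : su * su = uu := by
  apply Subtype.ext
  change (HahnSeries.single (1 / 2 : ℚ) (1 : ℂ)) * HahnSeries.single (1 / 2 : ℚ) (1 : ℂ) =
    HahnSeries.single (1 : ℚ) (1 : ℂ)
  rw [HahnSeries.single_mul_single]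
  norm_num

theorem cf_uu (q : ℚ) : cf uu q = if q = 1 then 1 else 0 := by
  change (HahnSeries.single (1 : ℚ) (1 : ℂ)).coeff q = _
  split_ifs with h
  · rw [h, HahnSeries.coeff_single_same]
  · rw [HahnSeries.coeff_single_of_ne h]

theorem cf_su (q : ℚ) : cf su q = if q = 1 / 2 then 1 else 0 := by
  change (HahnSeries.single (1 / 2 : ℚ) (1 : ℂ)).coeff q = _
  split_ifs with h
  · rw [h, HahnSeries.coeff_single_same]
  · rw [HahnSeries.coeff_single_of_ne h]

theorem cf_add (x y : PP) (q : ℚ) : cf (x + y) q = cf x q + cf y q := by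
  change ((x : HQ ℂ) + (y : HQ ℂ)).coeff q = _
  rw [HahnSeries.coeff_add]; rfl

theorem cf_neg (x : PP) (q : ℚ) : cf (-x) q = -cf x q := by
  change (-(x : HQ ℂ)).coeff q = _
  rw [HahnSeries.coeff_neg]; rfl

theorem cf_zero (q : ℚ) : cf 0 q = 0 := rfl

theorem tau_cst (e : ℂ) : tau (cst e) = cst e := by
  apply ext_cf
  intro q
  rw [cf_tau, cf_cst]
  split_ifs with h
  · rw [h, AddChar.map_zero_eq_one, one_mul]
  · rw [mul_zero]

theorem tau_uu : tau uu = uu := by
  apply ext_cf
  intro q
  rw [cf_tau, cf_uu]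
  split_ifs with h
  · rw [h, ch_one, one_mul]
  · rw [mul_zero]

theorem tau_su : tau su = -su := by
  apply ext_cf
  intro q
  rw [cf_tau, cf_neg, cf_su]
  split_ifs with h
  · rw [h, ch_half]; ring
  · rw [mul_zero, neg_zero]

theorem uu_ne : uu ≠ 0 := by
  intro h
  have := cf_uu 1
  rw [h, cf_zero] at this
  simp at this

theorem su_ne : su ≠ 0 := by
  intro h
  apply uu_ne
  rw [← su_sq, h, mul_zero]

instance : CharZero PP := charZero_of_injective_ringHom cst.injective

/-- the order -/
noncomputable def od (x : PP) : ℚ := (x : HQ ℂ).order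

theorem cf_od {x : PP} (h : x ≠ 0) : cf x (od x) ≠ 0 := by
  have h1 : (x : HQ ℂ) ≠ 0 := fun h2 => h (Subtype.ext h2)
  exact HahnSeries.coeff_order_eq_zero.not.2 h1

theorem od_le {x : PP} {q : ℚ} (h : cf x q ≠ 0) : od x ≤ q :=
  HahnSeries.order_le_of_coeff_ne_zero h

theorem od_mul {x y : PP} (hx : x ≠ 0) (hy : y ≠ 0) : od (x * y) = od x + od y := by
  have h1 : (x : HQ ℂ) ≠ 0 := fun h2 => hx (Subtype.ext h2)
  have h2 : (y : HQ ℂ) ≠ 0 := fun h2 => hy (Subtype.ext h2)
  exact HahnSeries.order_mul h1 h2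

theorem cf_mul_od {x y : PP} : cf (x * y) (od x + od y) = cf x (od x) * cf y (od y) := by
  change ((x : HQ ℂ) * (y : HQ ℂ)).coeff _ = _
  have h := HahnSeries.coeff_mul_order_add_order (x : HQ ℂ) (y : HQ ℂ)
  rw [HahnSeries.leadingCoeff_eq, HahnSeries.leadingCoeff_eq] at h
  exact h

theorem od_eq {x : PP} {q : ℚ} (h : cf x q ≠ 0) (h' : ∀ r < q, cf x r = 0) : od x = q := by
  apply le_antisymm (od_le h)
  by_contra hlt
  rw [not_le] at hlt
  have hx : x ≠ 0 := by
    rintro rfl
    exact h rfl
  exact cf_od hx (h' _ hlt)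

theorem od_cst {c : ℂ} (hc : c ≠ 0) : od (cst c) = 0 := by
  apply od_eq
  · rw [cf_cst, if_pos rfl]; exact hc
  · intro r hr
    rw [cf_cst, if_neg hr.ne]

/-- `x` has order zero -/
def U0 (x : PP) : Prop := x ≠ 0 ∧ od x = 0

theorem U0.cf {x : PP} (h : U0 x) : cf x 0 ≠ 0 := by
  have := cf_od h.1
  rwa [h.2] at this

theorem U0.mul {x y : PP} (h : U0 x) (h' : U0 y) : U0 (x * y) :=
  ⟨mul_ne_zero h.1 h'.1, by rw [od_mul h.1 h'.1, h.2, h'.2, add_zero]⟩

theorem U0.inv {x : PP} (h : U0 x) : U0 x⁻¹ := by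
  refine ⟨inv_ne_zero h.1, ?_⟩
  have h1 := od_mul h.1 (inv_ne_zero h.1)
  rw [mul_inv_cancel₀ h.1, h.2, zero_add] at h1
  rw [← h1]
  have : (1 : PP) = cst 1 := (map_one _).symm
  rw [this, od_cst one_ne_zero]

theorem U0.of_sq {x : PP} (h : U0 (x * x)) : U0 x := by
  have hx : x ≠ 0 := left_ne_zero_of_mul h.1
  refine ⟨hx, ?_⟩
  have := h.2
  rw [od_mul hx hx] at this
  linarith

/-- the value of a polynomial at a perturbed point -/
noncomputable def ev (t : ℂ) (f : Polynomial ℂ) : PP := f.eval₂ cst (cst t + uu)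

theorem tau_ev (t : ℂ) (f : Polynomial ℂ) : tau (ev t f) = ev t f := by
  unfold ev
  have h1 : tau (f.eval₂ cst (cst t + uu)) =
      (tau : PP →+* PP) (f.eval₂ cst (cst t + uu)) := rfl
  rw [h1, Polynomial.hom_eval₂]
  congr 1
  · exact RingHom.ext fun x => tau_cst x
  · change tau (cst t + uu) = _
    rw [map_add, tau_cst, tau_uu]

theorem nonneg_ev (t : ℂ) (f : Polynomial ℂ) : (∀ q < 0, cf (ev t f) q = 0) ∧
    cf (ev t f) 0 = f.eval t := by
  induction f using Polynomial.induction_on' with
  | add p q hp hq =>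
    have h1 : ev t (p + q) = ev t p + ev t q := by unfold ev; rw [Polynomial.eval₂_add]
    rw [h1]
    refine ⟨fun r hr => ?_, ?_⟩
    · rw [cf_add, hp.1 r hr, hq.1 r hr, add_zero]
    · rw [cf_add, hp.2, hq.2, Polynomial.eval_add]
  | monomial n a =>
    have key : ∀ n : ℕ, (∀ q < 0, cf ((cst t + uu) ^ n) q = 0) ∧
        cf ((cst t + uu) ^ n) 0 = t ^ n := by
      intro n
      have hb : ∀ q < 0, cf (cst t + uu) q = 0 := by
        intro q hq
        rw [cf_add, cf_cst, cf_uu, if_neg hq.ne, if_neg (by linarith), add_zero]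
      have hb0 : cf (cst t + uu) 0 = t := by
        rw [cf_add, cf_cst, cf_uu, if_pos rfl, if_neg (by norm_num), add_zero]
      have hmul : ∀ x y : PP, (∀ q < 0, cf x q = 0) → (∀ q < 0, cf y q = 0) →
          (∀ q < 0, cf (x * y) q = 0) ∧ cf (x * y) 0 = cf x 0 * cf y 0 := by
        intro x y hx hy
        have hc : ∀ q, cf (x * y) q = ((x : HQ ℂ) * (y : HQ ℂ)).coeff q := fun q => rfl
        constructor
        · intro q hq
          rw [hc, HahnSeries.coeff_mul]
          apply Finset.sum_eq_zero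
          intro ij hij
          have h1 : ij.1 + ij.2 = q := (Finset.mem_antidiagonal.1 hij).2.2
          rcases lt_or_ge ij.1 0 with h2 | h2
          · have : (x : HQ ℂ).coeff ij.1 = 0 := hx _ h2
            rw [this, zero_mul]
          · have : (y : HQ ℂ).coeff ij.2 = 0 := hy _ (by linarith)
            rw [this, mul_zero]
        · rw [hc, HahnSeries.coeff_mul]
          rw [Finset.sum_eq_single (0, 0)]
          · rfl
          · intro ij hij hne
            have h1 : ij.1 + ij.2 = 0 := (Finset.mem_antidiagonal.1 hij).2.2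
            rcases lt_trichotomy ij.1 0 with h2 | h2 | h2
            · have : (x : HQ ℂ).coeff ij.1 = 0 := hx _ h2
              rw [this, zero_mul]
            · exfalso
              apply hne
              apply Prod.ext
              · exact h2
              · linarith
            · have : (y : HQ ℂ).coeff ij.2 = 0 := hy _ (by linarith)
              rw [this, mul_zero]
          · intro h
            by_contra h2
            apply h
            rw [Finset.mem_antidiagonal]
            refine ⟨?_, ?_, ?_⟩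
            · exact left_ne_zero_of_mul h2
            · exact right_ne_zero_of_mul h2
            · simp
      induction n with
      | zero =>
        rw [pow_zero, pow_zero]
        have : (1 : PP) = cst 1 := (map_one _).symm
        rw [this]
        exact ⟨fun q hq => by rw [cf_cst, if_neg hq.ne], by rw [cf_cst, if_pos rfl]⟩
      | succ n ih =>
        rw [pow_succ]
        have h1 := hmul _ _ ih.1 hb
        refine ⟨h1.1, ?_⟩
        rw [h1.2, ih.2, hb0, pow_succ]
    have hcm : ∀ (y : PP) (q : ℚ), cf (cst a * y) q = a * cf y q := by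
      intro y q
      change ((HahnSeries.C a : HQ ℂ) * (y : HQ ℂ)).coeff q = _
      rw [HahnSeries.C_mul_eq_smul, HahnSeries.coeff_smul]
      rfl
    have h1 : ev t (Polynomial.monomial n a) = cst a * (cst t + uu) ^ n := by
      unfold ev; rw [Polynomial.eval₂_monomial]
    rw [h1]
    refine ⟨fun r hr => ?_, ?_⟩
    · rw [hcm, (key n).1 r hr, mul_zero]
    · rw [hcm, (key n).2, Polynomial.eval_monomial]

theorem ev_U0 {t : ℂ} {f : Polynomial ℂ} (h : f.eval t ≠ 0) : U0 (ev t f) := by
  have h1 := nonneg_ev t f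
  have h2 : cf (ev t f) 0 ≠ 0 := by rw [h1.2]; exact h
  refine ⟨?_, od_eq h2 h1.1⟩
  intro h3
  rw [h3] at h2
  exact h2 rfl

theorem ev_mul (t : ℂ) (f g : Polynomial ℂ) : ev t (f * g) = ev t f * ev t g := by
  unfold ev; rw [Polynomial.eval₂_mul]

theorem ev_fac (t : ℂ) (f : Polynomial ℂ) (hf : f ≠ 0) :
    ∃ G : PP, U0 G ∧ tau G = G ∧ ev t f = uu ^ (f.rootMultiplicity t) * G := by
  obtain ⟨g, hg1, hg2⟩ := Polynomial.exists_eq_pow_rootMultiplicity_mul_and_not_dvd f hf t
  refine ⟨ev t g, ev_U0 ?_, tau_ev t g, ?_⟩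
  · intro h
    exact hg2 (Polynomial.dvd_iff_isRoot.2 h)
  · conv_lhs => rw [hg1]
    rw [ev_mul]
    congr 1
    unfold ev
    rw [Polynomial.eval₂_pow, Polynomial.eval₂_sub, Polynomial.eval₂_X, Polynomial.eval₂_C]
    congr 1
    ring

theorem ev_ne {t : ℂ} {f : Polynomial ℂ} (hf : f ≠ 0) : ev t f ≠ 0 := by
  obtain ⟨G, h1, -, h3⟩ := ev_fac t f hf
  rw [h3]
  exact mul_ne_zero (pow_ne_zero _ uu_ne) h1.1

/-- square roots of elements of odd order are anti-invariant -/
theorem tau_sqrt {k : ℤ} (hk : Odd k) {G D : PP} (hG : U0 G) (htG : tau G = G)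
    (hD : D * D = uu ^ k * G) : tau D = -D := by
  obtain ⟨j, rfl⟩ := hk
  have hu := uu_ne
  have hs := su_ne
  set D' : PP := D * (uu ^ j * su)⁻¹ with hD'
  have h1 : D' * D' = G := by
    have h2 : (uu ^ j * su) * (uu ^ j * su) = uu ^ (2 * j + 1) := by
      have : (uu ^ j * su) * (uu ^ j * su) = uu ^ j * uu ^ j * (su * su) := by ring
      rw [this, su_sq, ← zpow_add₀ hu, ← zpow_add_one₀ hu]
      congr 1
      ring
    have h3 : D' * D' = (D * D) * ((uu ^ j * su) * (uu ^ j * su))⁻¹ := by
      rw [hD', mul_inv]; ring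
    rw [h3, hD, h2]
    field_simp
  have h4 : U0 D' := by
    apply U0.of_sq
    rw [h1]; exact hG
  have h5 : tau D' = D' := by
    have h6 : tau D' * tau D' = D' * D' := by
      rw [← map_mul, h1, htG]
    rcases mul_self_eq_mul_self_iff.1 h6 with h7 | h7
    · exact h7
    · exfalso
      have h8 := congrArg (fun x => cf x 0) h7
      simp only [cf_tau, cf_neg, AddChar.map_zero_eq_one, one_mul] at h8
      apply h4.cf
      linear_combination h8 / 2
  have h9 : D = D' * (uu ^ j * su) := by
    rw [hD']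
    field_simp
  rw [h9, map_mul, h5, map_mul, map_zpow₀, tau_uu, tau_su]
  ring

/-- powers of the monodromy -/
theorem cf_tau_pow (e : ℕ) (x : PP) (q : ℚ) : cf ((tau ^ e : PP ≃+* PP) x) q = ch q ^ e * cf x q := by
  induction e generalizing x with
  | zero => simp
  | succ e ih =>
    rw [pow_succ, RingAut.mul_apply, ih, cf_tau, pow_succ]
    ring

theorem od_tau_pow (e : ℕ) {x : PP} (hx : x ≠ 0) : od ((tau ^ e : PP ≃+* PP) x) = od x := by
  have hne : ∀ q, ch q ^ e ≠ 0 := fun q => pow_ne_zero _ (addChar_ne_zero ch q)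
  apply od_eq
  · rw [cf_tau_pow]
    exact mul_ne_zero (hne _) (cf_od hx)
  · intro r hr
    rw [cf_tau_pow]
    have : cf x r = 0 := by
      by_contra h
      exact absurd (od_le h) (not_le.2 hr)
    rw [this, mul_zero]

/-- leading terms of elements whose norm is constant -/
theorem norm_cst (e : ℕ) {x : PP} {c : ℂ} (hc : c ≠ 0) (h : x * (tau ^ e : PP ≃+* PP) x = cst c) :
    cf x 0 * cf x 0 = c := by
  have hx : x ≠ 0 := by
    rintro rfl
    rw [zero_mul] at h
    exact hc (by
      have := congrArg (fun y => cf y 0) h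
      simp only [cf_zero, cf_cst, if_true] at this
      exact this.symm)
  have hx' : (tau ^ e : PP ≃+* PP) x ≠ 0 := (map_ne_zero _).2 hx
  have h1 := od_mul hx hx'
  rw [h, od_cst hc, od_tau_pow e hx] at h1
  have h2 : od x = 0 := by linarith
  have h3 := cf_mul_od (x := x) (y := (tau ^ e : PP ≃+* PP) x)
  rw [h, od_tau_pow e hx, h2, add_zero, cf_cst, if_pos rfl, cf_tau_pow,
    AddChar.map_zero_eq_one, one_pow, one_mul] at h3
  exact h3.symm

end Pool.Agent.K7.H27.TH
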